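import Mathlib

set_option autoImplicit false

namespace Pool.Agent.Helper37

open Real Filter Topology

/-- smoothed absolute value -/
noncomputable def sa (δ x : ℝ) : ℝ := Real.sqrt (x ^ 2 + δ ^ 2)

/-- smoothed Burkholder function -/
noncomputable def bU (p δ x y : ℝ) : ℝ :=
  (sa δ x + sa δ y) ^ p - p * sa δ x * (sa δ x + sa δ y) ^ (p - 1)

lemma sa_pos {δ : ℝ} (hδ : 0 < δ) (x : ℝ) : 0 < sa δ x := by
  unfold sa; positivity

lemma sa_sq {δ : ℝ} (x : ℝ) : sa δ x ^ 2 = x ^ 2 + δ ^ 2 := by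
  unfold sa; rw [Real.sq_sqrt]; positivity

lemma sa_zero (x : ℝ) : sa 0 x = |x| := by
  unfold sa; simp [Real.sqrt_sq_eq_abs]

lemma hasDerivAt_sa {δ : ℝ} (hδ : 0 < δ) (x h t : ℝ) :
    HasDerivAt (fun t => sa δ (x + t * h)) ((x + t * h) * h / sa δ (x + t * h)) t := by
  have h1 : HasDerivAt (fun t => (x + t * h) ^ 2 + δ ^ 2) (2 * (x + t * h) * h) t := by
    have h2 : HasDerivAt (fun t => x + t * h) h t := by
      simpa using ((hasDerivAt_id t).mul_const h).const_add x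
    have := (h2.pow 2).add_const (δ ^ 2)
    simpa using this
  have h3 : (x + t * h) ^ 2 + δ ^ 2 ≠ 0 := by positivity
  have h4 := h1.sqrt h3
  refine h4.congr_deriv ?_
  unfold sa
  have h6 : 0 < Real.sqrt ((x + t * h) ^ 2 + δ ^ 2) := by positivity
  field_simp

lemma hasDerivAt_sa2 {δ : ℝ} (hδ : 0 < δ) (x h t : ℝ) :
    HasDerivAt (fun t => (x + t * h) * h / sa δ (x + t * h))
      (δ ^ 2 * h ^ 2 / sa δ (x + t * h) ^ 3) t := by
  have h2 : HasDerivAt (fun t => (x + t * h) * h) (h * h) t := by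
    simpa using (((hasDerivAt_id t).mul_const h).const_add x).mul_const h
  have h3 := h2.div (hasDerivAt_sa hδ x h t) (sa_pos hδ _).ne'
  refine h3.congr_deriv ?_
  have hs := sa_pos hδ (x + t * h)
  have h4 := sa_sq (δ := δ) (x + t * h)
  generalize sa δ (x + t * h) = s at *
  generalize x + t * h = u at *
  have h5 : δ ^ 2 = s ^ 2 - u ^ 2 := by linarith
  rw [h5]
  field_simp

lemma hasDerivAt_G1 (p : ℝ) (a b a1 b1 : ℝ → ℝ) (t : ℝ)
    (ha : HasDerivAt a (a1 t) t) (hb : HasDerivAt b (b1 t) t)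
    (pa : 0 < a t) (pb : 0 < b t) :
    HasDerivAt (fun t => (a t + b t) ^ p - p * a t * (a t + b t) ^ (p - 1))
      (p * (a t + b t) ^ (p - 1) * b1 t
        - p * (p - 1) * a t * (a t + b t) ^ (p - 2) * (a1 t + b1 t)) t := by
  have hr : HasDerivAt (fun t => a t + b t) (a1 t + b1 t) t := ha.add hb
  have hr0 : a t + b t ≠ 0 := by positivity
  have h1 := hr.rpow_const (p := p) (Or.inl hr0)
  have h2 := hr.rpow_const (p := p - 1) (Or.inl hr0)
  have h3 := (ha.const_mul p).mul h2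
  have h4 := h1.sub h3
  refine h4.congr_deriv ?_
  have e : p - 1 - 1 = p - 2 := by ring
  rw [e]
  ring

lemma hasDerivAt_G2 (p : ℝ) (a b a1 b1 a2 b2 : ℝ → ℝ) (t : ℝ)
    (ha : HasDerivAt a (a1 t) t) (hb : HasDerivAt b (b1 t) t)
    (ha1 : HasDerivAt a1 (a2 t) t) (hb1 : HasDerivAt b1 (b2 t) t)
    (pa : 0 < a t) (pb : 0 < b t) :
    HasDerivAt (fun t => p * (a t + b t) ^ (p - 1) * b1 t
        - p * (p - 1) * a t * (a t + b t) ^ (p - 2) * (a1 t + b1 t))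
      (p * (a t + b t) ^ (p - 3) *
        ((p - 1) * (a t + b t) * (a1 t + b1 t) * b1 t + (a t + b t) ^ 2 * b2 t
          - (p - 1) * (a1 t * (a t + b t) * (a1 t + b1 t)
            + (p - 2) * a t * (a1 t + b1 t) ^ 2 + a t * (a t + b t) * (a2 t + b2 t)))) t := by
  have hr : HasDerivAt (fun t => a t + b t) (a1 t + b1 t) t := ha.add hb
  have hr1 : HasDerivAt (fun t => a1 t + b1 t) (a2 t + b2 t) t := ha1.add hb1
  have hrp : 0 < a t + b t := by positivity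
  have hr0 : a t + b t ≠ 0 := hrp.ne'
  have h1 := hr.rpow_const (p := p - 1) (Or.inl hr0)
  have h2 := hr.rpow_const (p := p - 2) (Or.inl hr0)
  have h3 := (h1.const_mul p).mul hb1
  have h4 := ((ha.const_mul (p * (p - 1))).mul h2).mul hr1
  have h5 := h3.sub h4
  have e1 : (a t + b t) ^ (p - 1) = (a t + b t) ^ (p - 3) * (a t + b t) ^ 2 := by
    rw [← Real.rpow_natCast, ← Real.rpow_add hrp]; congr 1; push_cast; ring
  have e2 : (a t + b t) ^ (p - 2) = (a t + b t) ^ (p - 3) * (a t + b t) := by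
    nth_rewrite 3 [← Real.rpow_one (a t + b t)]
    rw [← Real.rpow_add hrp]; congr 1; ring
  have e3 : p - 1 - 1 = p - 2 := by ring
  have e4 : p - 2 - 1 = p - 3 := by ring
  refine h5.congr_deriv ?_
  rw [e3, e4, e1]
  simp only [Pi.mul_apply]
  rw [e2]
  ring

/-- The key algebraic inequality behind Burkholder's function. -/
lemma key_nonpos {p a b A1 B1 A2 B2 h k : ℝ} (hp : 2 ≤ p) (ha : 0 < a) (hb : 0 < b)
    (hA : a * A2 = h ^ 2 - A1 ^ 2) (hB : b * B2 = k ^ 2 - B1 ^ 2)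
    (hB1 : B1 ^ 2 ≤ k ^ 2) (hB2 : 0 ≤ B2) (hk : k ^ 2 ≤ h ^ 2) :
    (p - 1) * (a + b) * (A1 + B1) * B1 + (a + b) ^ 2 * B2
          - (p - 1) * (A1 * (a + b) * (A1 + B1)
            + (p - 2) * a * (A1 + B1) ^ 2 + a * (a + b) * (A2 + B2)) ≤ 0 := by
  have e : (p - 1) * (a + b) * (A1 + B1) * B1 + (a + b) ^ 2 * B2
          - (p - 1) * (A1 * (a + b) * (A1 + B1)
            + (p - 2) * a * (A1 + B1) ^ 2 + a * (a + b) * (A2 + B2))
      = (a + b) * ((p - 2) * B1 ^ 2 + k ^ 2 - (p - 1) * h ^ 2)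
        - (p - 1) * (p - 2) * a * (A1 + B1) ^ 2 - (p - 2) * (a + b) * a * B2
        + (a + b) * (b * B2 - (k ^ 2 - B1 ^ 2))
        - (p - 1) * (a + b) * (a * A2 - (h ^ 2 - A1 ^ 2)) := by ring
  rw [e, hA, hB]
  have h1 : (p - 2) * B1 ^ 2 + k ^ 2 - (p - 1) * h ^ 2 ≤ 0 := by nlinarith
  have h2 : 0 ≤ (p - 1) * (p - 2) * a * (A1 + B1) ^ 2 := by
    have : 0 ≤ p - 1 := by linarith
    have : 0 ≤ p - 2 := by linarith
    positivity
  have h3 : 0 ≤ (p - 2) * (a + b) * a * B2 := by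
    have : 0 ≤ p - 2 := by linarith
    positivity
  have h4 : (a + b) * ((p - 2) * B1 ^ 2 + k ^ 2 - (p - 1) * h ^ 2) ≤ 0 :=
    mul_nonpos_of_nonneg_of_nonpos (by positivity) h1
  linarith

lemma key_nonneg {p a b A1 B1 A2 B2 h k : ℝ} (hp : p ≤ 2) (hp1 : 1 < p) (ha : 0 < a) (hb : 0 < b)
    (hA : a * A2 = h ^ 2 - A1 ^ 2) (hB : b * B2 = k ^ 2 - B1 ^ 2)
    (hB1 : B1 ^ 2 ≤ k ^ 2) (hB2 : 0 ≤ B2) (hk : h ^ 2 ≤ k ^ 2) :
    0 ≤ (p - 1) * (a + b) * (A1 + B1) * B1 + (a + b) ^ 2 * B2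
          - (p - 1) * (A1 * (a + b) * (A1 + B1)
            + (p - 2) * a * (A1 + B1) ^ 2 + a * (a + b) * (A2 + B2)) := by
  have e : (p - 1) * (a + b) * (A1 + B1) * B1 + (a + b) ^ 2 * B2
          - (p - 1) * (A1 * (a + b) * (A1 + B1)
            + (p - 2) * a * (A1 + B1) ^ 2 + a * (a + b) * (A2 + B2))
      = (a + b) * ((p - 2) * B1 ^ 2 + k ^ 2 - (p - 1) * h ^ 2)
        + (p - 1) * (2 - p) * a * (A1 + B1) ^ 2 + (2 - p) * (a + b) * a * B2
        + (a + b) * (b * B2 - (k ^ 2 - B1 ^ 2))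
        - (p - 1) * (a + b) * (a * A2 - (h ^ 2 - A1 ^ 2)) := by ring
  rw [e, hA, hB]
  have h1 : 0 ≤ (p - 2) * B1 ^ 2 + k ^ 2 - (p - 1) * h ^ 2 := by nlinarith
  have h2 : 0 ≤ (p - 1) * (2 - p) * a * (A1 + B1) ^ 2 := by
    have : 0 ≤ p - 1 := by linarith
    have : 0 ≤ 2 - p := by linarith
    positivity
  have h3 : 0 ≤ (2 - p) * (a + b) * a * B2 := by
    have : 0 ≤ 2 - p := by linarith
    positivity
  have h4 : 0 ≤ (a + b) * ((p - 2) * B1 ^ 2 + k ^ 2 - (p - 1) * h ^ 2) := by positivity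
  linarith

lemma sa1_sq_le {δ : ℝ} (hδ : 0 < δ) (x h : ℝ) : (x * h / sa δ x) ^ 2 ≤ h ^ 2 := by
  have h0 := sa_pos hδ x
  have h1 := sa_sq (δ := δ) x
  rw [div_pow, div_le_iff₀ (by positivity), h1]
  have : 0 ≤ h ^ 2 * δ ^ 2 := by positivity
  nlinarith

lemma sa_rel {δ : ℝ} (hδ : 0 < δ) (x h : ℝ) :
    sa δ x * (δ ^ 2 * h ^ 2 / sa δ x ^ 3) = h ^ 2 - (x * h / sa δ x) ^ 2 := by
  have h0 := sa_pos hδ x
  have h1 := sa_sq (δ := δ) x
  field_simp
  rw [h1]; ring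

lemma bU_mid_p_ge {p δ : ℝ} (hp : 2 ≤ p) (hδ : 0 < δ) (x y h k : ℝ) (hk : |k| ≤ |h|) :
    bU p δ (x + h) (y + k) + bU p δ (x - h) (y - k) ≤ 2 * bU p δ x y := by
  set a : ℝ → ℝ := fun t => sa δ (x + t * h) with ha
  set b : ℝ → ℝ := fun t => sa δ (y + t * k) with hb
  set a1 : ℝ → ℝ := fun t => (x + t * h) * h / sa δ (x + t * h) with ha1
  set b1 : ℝ → ℝ := fun t => (y + t * k) * k / sa δ (y + t * k) with hb1
  set a2 : ℝ → ℝ := fun t => δ ^ 2 * h ^ 2 / sa δ (x + t * h) ^ 3 with ha2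
  set b2 : ℝ → ℝ := fun t => δ ^ 2 * k ^ 2 / sa δ (y + t * k) ^ 3 with hb2
  have dG1 : ∀ t, HasDerivAt (fun t => (a t + b t) ^ p - p * a t * (a t + b t) ^ (p - 1)) _ t :=
    fun t => hasDerivAt_G1 p a b a1 b1 t (hasDerivAt_sa hδ x h t) (hasDerivAt_sa hδ y k t)
      (sa_pos hδ _) (sa_pos hδ _)
  have dG2 := fun t => hasDerivAt_G2 p a b a1 b1 a2 b2 t (hasDerivAt_sa hδ x h t)
      (hasDerivAt_sa hδ y k t) (hasDerivAt_sa2 hδ x h t) (hasDerivAt_sa2 hδ y k t)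
      (sa_pos hδ _) (sa_pos hδ _)
  have hconc : ConcaveOn ℝ Set.univ (fun t => (a t + b t) ^ p - p * a t * (a t + b t) ^ (p - 1)) := by
    refine concaveOn_of_hasDerivWithinAt2_nonpos convex_univ
      (fun t _ => (dG1 t).continuousAt.continuousWithinAt)
      (fun t _ => (dG1 t).hasDerivWithinAt) (fun t _ => (dG2 t).hasDerivWithinAt) ?_
    intro t _
    have hpos : 0 ≤ p * (a t + b t) ^ (p - 3) := by
      have := sa_pos hδ (x + t * h)
      have := sa_pos hδ (y + t * k)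
      have : 0 < a t + b t := by simp only [ha, hb]; positivity
      positivity
    refine mul_nonpos_of_nonneg_of_nonpos hpos ?_
    refine key_nonpos hp (sa_pos hδ _) (sa_pos hδ _) (sa_rel hδ _ _) (sa_rel hδ _ _)
      (sa1_sq_le hδ _ _) ?_ (sq_le_sq.mpr hk)
    have := sa_pos hδ (y + t * k)
    simp only [hb2]; positivity
  have := hconc.2 (Set.mem_univ (1 : ℝ)) (Set.mem_univ (-1 : ℝ))
    (by norm_num : (0 : ℝ) ≤ 1 / 2) (by norm_num : (0 : ℝ) ≤ 1 / 2) (by norm_num)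
  simp only [smul_eq_mul, ha, hb] at this
  unfold bU
  have e0 : (1 / 2 * 1 + 1 / 2 * -1 : ℝ) = 0 := by norm_num
  rw [e0] at this
  simp only [zero_mul, add_zero, one_mul, neg_mul, ← sub_eq_add_neg] at this
  linarith

lemma bU_mid_p_le {p δ : ℝ} (hp : p ≤ 2) (hp1 : 1 < p) (hδ : 0 < δ) (x y h k : ℝ)
    (hk : |h| ≤ |k|) :
    2 * bU p δ x y ≤ bU p δ (x + h) (y + k) + bU p δ (x - h) (y - k) := by
  set a : ℝ → ℝ := fun t => sa δ (x + t * h) with ha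
  set b : ℝ → ℝ := fun t => sa δ (y + t * k) with hb
  set a1 : ℝ → ℝ := fun t => (x + t * h) * h / sa δ (x + t * h) with ha1
  set b1 : ℝ → ℝ := fun t => (y + t * k) * k / sa δ (y + t * k) with hb1
  set a2 : ℝ → ℝ := fun t => δ ^ 2 * h ^ 2 / sa δ (x + t * h) ^ 3 with ha2
  set b2 : ℝ → ℝ := fun t => δ ^ 2 * k ^ 2 / sa δ (y + t * k) ^ 3 with hb2
  have dG1 : ∀ t, HasDerivAt (fun t => (a t + b t) ^ p - p * a t * (a t + b t) ^ (p - 1)) _ t :=
    fun t => hasDerivAt_G1 p a b a1 b1 t (hasDerivAt_sa hδ x h t) (hasDerivAt_sa hδ y k t)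
      (sa_pos hδ _) (sa_pos hδ _)
  have dG2 := fun t => hasDerivAt_G2 p a b a1 b1 a2 b2 t (hasDerivAt_sa hδ x h t)
      (hasDerivAt_sa hδ y k t) (hasDerivAt_sa2 hδ x h t) (hasDerivAt_sa2 hδ y k t)
      (sa_pos hδ _) (sa_pos hδ _)
  have hconc : ConvexOn ℝ Set.univ (fun t => (a t + b t) ^ p - p * a t * (a t + b t) ^ (p - 1)) := by
    refine convexOn_of_hasDerivWithinAt2_nonneg convex_univ
      (fun t _ => (dG1 t).continuousAt.continuousWithinAt)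
      (fun t _ => (dG1 t).hasDerivWithinAt) (fun t _ => (dG2 t).hasDerivWithinAt) ?_
    intro t _
    have hpos : 0 ≤ p * (a t + b t) ^ (p - 3) := by
      have := sa_pos hδ (x + t * h)
      have := sa_pos hδ (y + t * k)
      have : 0 < a t + b t := by simp only [ha, hb]; positivity
      have : 0 < p := by linarith
      positivity
    refine mul_nonneg hpos ?_
    refine key_nonneg hp hp1 (sa_pos hδ _) (sa_pos hδ _) (sa_rel hδ _ _) (sa_rel hδ _ _)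
      (sa1_sq_le hδ _ _) ?_ (sq_le_sq.mpr hk)
    have := sa_pos hδ (y + t * k)
    simp only [hb2]; positivity
  have := hconc.2 (Set.mem_univ (1 : ℝ)) (Set.mem_univ (-1 : ℝ))
    (by norm_num : (0 : ℝ) ≤ 1 / 2) (by norm_num : (0 : ℝ) ≤ 1 / 2) (by norm_num)
  simp only [smul_eq_mul, ha, hb] at this
  unfold bU
  have e0 : (1 / 2 * 1 + 1 / 2 * -1 : ℝ) = 0 := by norm_num
  rw [e0] at this
  simp only [zero_mul, add_zero, one_mul, neg_mul, ← sub_eq_add_neg] at this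
  linarith

end Pool.Agent.Helper37
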