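import Pool.Agent.Helper37.Burk

set_option autoImplicit false

namespace Pool.Agent.Helper37

open Real Filter Topology

lemma sum_range_two_mul {M : Type*} [AddCommMonoid M] (n : ℕ) (f : ℕ → M) :
    ∑ k ∈ Finset.range (2 * n), f k = ∑ k ∈ Finset.range n, (f (2 * k) + f (2 * k + 1)) := by
  induction n with
  | zero => simp
  | succ n ih =>
    rw [Finset.sum_range_succ _ n, ← ih, show 2 * (n + 1) = 2 * n + 1 + 1 by ring,
      Finset.sum_range_succ, Finset.sum_range_succ, add_assoc]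

lemma sum_range_pow_succ {M : Type*} [AddCommMonoid M] (n : ℕ) (f : ℕ → M) :
    ∑ k ∈ Finset.range (2 ^ (n + 1)), f k =
      ∑ k ∈ Finset.range (2 ^ n), (f (2 * k) + f (2 * k + 1)) := by
  rw [pow_succ, mul_comm, sum_range_two_mul]

/-- dyadic martingale pair: `B` is differentially subordinate to `A`. -/
structure Sub (A B : ℕ → ℕ → ℝ) : Prop where
  hA : ∀ n k, A n k = (A (n + 1) (2 * k) + A (n + 1) (2 * k + 1)) / 2
  hB : ∀ n k, B n k = (B (n + 1) (2 * k) + B (n + 1) (2 * k + 1)) / 2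
  hd : ∀ n k, |B (n + 1) (2 * k) - B (n + 1) (2 * k + 1)|
    ≤ |A (n + 1) (2 * k) - A (n + 1) (2 * k + 1)|
  h0 : |B 0 0| ≤ |A 0 0|

lemma Sub.sum_le {A B : ℕ → ℕ → ℝ} (h : Sub A B) (W : ℝ → ℝ → ℝ)
    (hW : ∀ x y h k : ℝ, |k| ≤ |h| → W (x + h) (y + k) + W (x - h) (y - k) ≤ 2 * W x y) (N : ℕ) :
    ∑ k ∈ Finset.range (2 ^ N), W (A N k) (B N k) ≤ 2 ^ N * W (A 0 0) (B 0 0) := by
  induction N with
  | zero => simp
  | succ N ih =>
    rw [sum_range_pow_succ]
    have h1 : ∑ k ∈ Finset.range (2 ^ N), (W (A (N + 1) (2 * k)) (B (N + 1) (2 * k)) +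
        W (A (N + 1) (2 * k + 1)) (B (N + 1) (2 * k + 1))) ≤
        ∑ k ∈ Finset.range (2 ^ N), 2 * W (A N k) (B N k) := by
      refine Finset.sum_le_sum fun k _ => ?_
      have e1 := h.hA N k
      have e2 := h.hB N k
      have e3 := h.hd N k
      have := hW (A N k) (B N k) ((A (N + 1) (2 * k) - A (N + 1) (2 * k + 1)) / 2)
        ((B (N + 1) (2 * k) - B (N + 1) (2 * k + 1)) / 2) (by
          rw [abs_div, abs_div]; gcongr)
      have g1 : A N k + (A (N + 1) (2 * k) - A (N + 1) (2 * k + 1)) / 2 = A (N + 1) (2 * k) := by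
        rw [e1]; ring
      have g2 : A N k - (A (N + 1) (2 * k) - A (N + 1) (2 * k + 1)) / 2
        = A (N + 1) (2 * k + 1) := by
        rw [e1]; ring
      have g3 : B N k + (B (N + 1) (2 * k) - B (N + 1) (2 * k + 1)) / 2 = B (N + 1) (2 * k) := by
        rw [e2]; ring
      have g4 : B N k - (B (N + 1) (2 * k) - B (N + 1) (2 * k + 1)) / 2
        = B (N + 1) (2 * k + 1) := by
        rw [e2]; ring
      rwa [g1, g2, g3, g4] at this
    rw [← Finset.mul_sum] at h1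
    calc _ ≤ _ := h1
      _ ≤ 2 * (2 ^ N * W (A 0 0) (B 0 0)) := by linarith
      _ = _ := by ring

lemma continuous_bU {p : ℝ} (hp : 1 < p) (x y : ℝ) : Continuous fun δ => bU p δ x y := by
  have h1 : ∀ z : ℝ, Continuous fun δ => sa δ z := by
    intro z; unfold sa; fun_prop
  unfold bU
  have h2 : Continuous fun δ => sa δ x + sa δ y := (h1 x).add (h1 y)
  exact (h2.rpow_const (fun _ => Or.inr (by linarith))).sub
    ((continuous_const.mul (h1 x)).mul (h2.rpow_const (fun _ => Or.inr (by linarith))))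

lemma bU0_mid_p_ge {p : ℝ} (hp : 2 ≤ p) (x y h k : ℝ) (hk : |k| ≤ |h|) :
    bU p 0 (x + h) (y + k) + bU p 0 (x - h) (y - k) ≤ 2 * bU p 0 x y := by
  have c := fun x y => (continuous_bU (p := p) (by linarith) x y).continuousWithinAt
    (s := Set.Ioi 0) (x := 0)
  refine le_of_tendsto_of_tendsto ((c _ _).add (c _ _)) (tendsto_const_nhds.mul (c x y)) ?_
  filter_upwards [self_mem_nhdsWithin] with δ hδ
  exact bU_mid_p_ge hp hδ x y h k hk

lemma bU0_mid_p_le {p : ℝ} (hp : p ≤ 2) (hp1 : 1 < p) (x y h k : ℝ) (hk : |h| ≤ |k|) :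
    2 * bU p 0 x y ≤ bU p 0 (x + h) (y + k) + bU p 0 (x - h) (y - k) := by
  have c := fun x y => (continuous_bU (p := p) (by linarith) x y).continuousWithinAt
    (s := Set.Ioi 0) (x := 0)
  refine le_of_tendsto_of_tendsto (tendsto_const_nhds.mul (c x y)) ((c _ _).add (c _ _)) ?_
  filter_upwards [self_mem_nhdsWithin] with δ hδ
  exact bU_mid_p_le hp hp1 hδ x y h k hk

lemma bU0_eq {p : ℝ} (hp : 1 < p) (x y : ℝ) :
    bU p 0 x y = (|x| + |y|) ^ (p - 1) * (|y| - (p - 1) * |x|) := by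
  unfold bU
  rw [sa_zero, sa_zero]
  have h : 0 ≤ |x| + |y| := by positivity
  have e : (|x| + |y|) ^ p = (|x| + |y|) ^ (p - 1) * (|x| + |y|) := by
    conv_lhs => rw [show p = (p - 1) + 1 by ring]
    rw [Real.rpow_add_of_nonneg h (by linarith) zero_le_one, Real.rpow_one]
  rw [e]; ring

lemma rpow_split {p b : ℝ} (hp : 1 < p) (hb : 0 ≤ b) : b ^ p = b ^ (p - 1) * b := by
  conv_lhs => rw [show p = (p - 1) + 1 by ring]
  rw [Real.rpow_add_of_nonneg hb (by linarith) zero_le_one, Real.rpow_one]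

lemma major_ge {p : ℝ} (hp : 2 ≤ p) (x y : ℝ) :
    |y| ^ p ≤ ((2 * (p - 1)) ^ p + 2 * (p - 1) * (2 * p - 1) ^ (p - 1)) * |x| ^ p
      + 2 * bU p 0 x y := by
  have hp1 : 1 < p := by linarith
  rw [bU0_eq hp1]
  have ha : 0 ≤ |x| := abs_nonneg _
  have hb : 0 ≤ |y| := abs_nonneg _
  generalize |x| = a at *
  generalize |y| = b at *
  have hap : 0 ≤ a ^ p := by positivity
  have hC1 : 0 ≤ (2 * (p - 1)) ^ p := Real.rpow_nonneg (by linarith) _
  have hC2 : 0 ≤ (2 * p - 1) ^ (p - 1) := Real.rpow_nonneg (by linarith) _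
  rcases le_or_gt (2 * (p - 1) * a) b with h | h
  · have h1 : b ^ (p - 1) ≤ (a + b) ^ (p - 1) :=
      Real.rpow_le_rpow hb (by linarith) (by linarith)
    have h2 : b / 2 ≤ b - (p - 1) * a := by linarith
    have h3 : b ^ (p - 1) * (b / 2) ≤ (a + b) ^ (p - 1) * (b - (p - 1) * a) := by
      gcongr
    have h4 : b ^ p = b ^ (p - 1) * b := rpow_split hp1 hb
    have h5 : 0 ≤ ((2 * (p - 1)) ^ p + 2 * (p - 1) * (2 * p - 1) ^ (p - 1)) * a ^ p := by
      have : 0 ≤ p - 1 := by linarith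
      positivity
    rw [h4]; linarith
  · have h1 : b ^ p ≤ (2 * (p - 1)) ^ p * a ^ p := by
      rw [← Real.mul_rpow (by linarith) ha]
      exact Real.rpow_le_rpow hb h.le (by linarith)
    have h2 : (a + b) ^ (p - 1) ≤ (2 * p - 1) ^ (p - 1) * a ^ (p - 1) := by
      rw [← Real.mul_rpow (by linarith) ha]
      exact Real.rpow_le_rpow (by positivity) (by linarith) (by linarith)
    have h3 : a ^ p = a ^ (p - 1) * a := rpow_split hp1 ha
    have h4 : 0 ≤ (a + b) ^ (p - 1) := by positivity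
    have h5 : -((p - 1) * ((2 * p - 1) ^ (p - 1) * a ^ p)) ≤
        (a + b) ^ (p - 1) * (b - (p - 1) * a) := by
      have h6 : (a + b) ^ (p - 1) * ((p - 1) * a) ≤
          ((2 * p - 1) ^ (p - 1) * a ^ (p - 1)) * ((p - 1) * a) := by
        have : 0 ≤ (p - 1) * a := by
          have : 0 ≤ p - 1 := by linarith
          positivity
        gcongr
      have h7 : 0 ≤ (a + b) ^ (p - 1) * b := by positivity
      have h8 : (p - 1) * ((2 * p - 1) ^ (p - 1) * a ^ p) =
        ((2 * p - 1) ^ (p - 1) * a ^ (p - 1)) * ((p - 1) * a) := by rw [h3]; ring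
      rw [h8]; linarith
    nlinarith

lemma major_le {p : ℝ} (hp : p ≤ 2) (hp1 : 1 < p) (x y : ℝ) :
    |y| ^ p ≤ ((2 / (p - 1)) ^ p + 2 / (p - 1) * (1 + 2 / (p - 1)) ^ (p - 1)) * |x| ^ p
      + 2 / (p - 1) * (- bU p 0 y x) := by
  rw [bU0_eq hp1]
  have ha : 0 ≤ |x| := abs_nonneg _
  have hb : 0 ≤ |y| := abs_nonneg _
  generalize |x| = a at *
  generalize |y| = b at *
  have hq : 0 < p - 1 := by linarith
  have hap : 0 ≤ a ^ p := by positivity
  have hC1 : 0 ≤ (2 / (p - 1)) ^ p := Real.rpow_nonneg (by positivity) _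
  have hC2 : 0 ≤ (1 + 2 / (p - 1)) ^ (p - 1) := Real.rpow_nonneg (by positivity) _
  rcases le_or_gt (2 * a) ((p - 1) * b) with h | h
  · have h1 : b ^ (p - 1) ≤ (b + a) ^ (p - 1) :=
      Real.rpow_le_rpow hb (by linarith) (by linarith)
    have h2 : (p - 1) * b / 2 ≤ (p - 1) * b - a := by linarith
    have h3 : b ^ (p - 1) * ((p - 1) * b / 2) ≤ (b + a) ^ (p - 1) * ((p - 1) * b - a) := by
      have : 0 ≤ (p - 1) * b / 2 := by positivity
      gcongr
    have h4 : b ^ p = b ^ (p - 1) * b := rpow_split hp1 hb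
    have h5 : 0 ≤ ((2 / (p - 1)) ^ p + 2 / (p - 1) * (1 + 2 / (p - 1)) ^ (p - 1)) * a ^ p := by
      positivity
    have h6 : 2 / (p - 1) * (b ^ (p - 1) * ((p - 1) * b / 2)) = b ^ (p - 1) * b := by
      field_simp
    have h7 : 2 / (p - 1) * (b ^ (p - 1) * ((p - 1) * b / 2)) ≤
        2 / (p - 1) * ((b + a) ^ (p - 1) * ((p - 1) * b - a)) := by gcongr
    have h8 : -((b + a) ^ (p - 1) * (a - (p - 1) * b)) =
      (b + a) ^ (p - 1) * ((p - 1) * b - a) := by ring
    rw [h4, h8]; linarith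
  · have hb' : b ≤ 2 / (p - 1) * a := by
      rw [div_mul_eq_mul_div, le_div_iff₀ hq]; linarith
    have h1 : b ^ p ≤ (2 / (p - 1)) ^ p * a ^ p := by
      rw [← Real.mul_rpow (by positivity) ha]
      exact Real.rpow_le_rpow hb hb' (by linarith)
    have h2 : (b + a) ^ (p - 1) ≤ (1 + 2 / (p - 1)) ^ (p - 1) * a ^ (p - 1) := by
      rw [← Real.mul_rpow (by positivity) ha]
      exact Real.rpow_le_rpow (by positivity) (by linarith) (by linarith)
    have h3 : a ^ p = a ^ (p - 1) * a := rpow_split hp1 ha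
    have h4 : 0 ≤ (b + a) ^ (p - 1) := by positivity
    have h5 : -((1 + 2 / (p - 1)) ^ (p - 1) * a ^ p) ≤
        -((b + a) ^ (p - 1) * (a - (p - 1) * b)) := by
      have h6 : (b + a) ^ (p - 1) * a ≤
          ((1 + 2 / (p - 1)) ^ (p - 1) * a ^ (p - 1)) * a := by
        gcongr
      have h7 : 0 ≤ (b + a) ^ (p - 1) * ((p - 1) * b) := by positivity
      rw [h3]; linarith
    have h9 : 2 / (p - 1) * (-((1 + 2 / (p - 1)) ^ (p - 1) * a ^ p)) ≤
        2 / (p - 1) * (-((b + a) ^ (p - 1) * (a - (p - 1) * b))) := by gcongr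
    linarith

/-- Burkholder's inequality for real dyadic martingale pairs. -/
theorem burk_real {p : ℝ} (hp : 1 < p) : ∃ C : ℝ, 0 ≤ C ∧ ∀ (A B : ℕ → ℕ → ℝ), Sub A B → ∀ N : ℕ,
    ∑ k ∈ Finset.range (2 ^ N), |B N k| ^ p ≤ C * ∑ k ∈ Finset.range (2 ^ N), |A N k| ^ p := by
  rcases le_or_gt 2 p with h2 | h2
  · refine ⟨(2 * (p - 1)) ^ p + 2 * (p - 1) * (2 * p - 1) ^ (p - 1), ?_, ?_⟩
    · have hq : 0 ≤ p - 1 := by linarith
      have hC1 : 0 ≤ (2 * (p - 1)) ^ p := Real.rpow_nonneg (by linarith) _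
      have hC2 : 0 ≤ (2 * p - 1) ^ (p - 1) := Real.rpow_nonneg (by linarith) _
      positivity
    · intro A B h N
      have h1 := h.sum_le (fun x y => bU p 0 x y) (fun x y h k hk => bU0_mid_p_ge h2 x y h k hk) N
      have h3 : bU p 0 (A 0 0) (B 0 0) ≤ 0 := by
        rw [bU0_eq hp]
        refine mul_nonpos_of_nonneg_of_nonpos (by positivity) ?_
        have := h.h0
        have := abs_nonneg (A 0 0)
        nlinarith
      calc ∑ k ∈ Finset.range (2 ^ N), |B N k| ^ p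
          ≤ ∑ k ∈ Finset.range (2 ^ N),
            (((2 * (p - 1)) ^ p + 2 * (p - 1) * (2 * p - 1) ^ (p - 1)) * |A N k| ^ p
              + 2 * bU p 0 (A N k) (B N k)) :=
            Finset.sum_le_sum fun k _ => major_ge h2 _ _
        _ = ((2 * (p - 1)) ^ p + 2 * (p - 1) * (2 * p - 1) ^ (p - 1)) *
              ∑ k ∈ Finset.range (2 ^ N), |A N k| ^ p
              + 2 * ∑ k ∈ Finset.range (2 ^ N), bU p 0 (A N k) (B N k) := by
            rw [Finset.sum_add_distrib, Finset.mul_sum, Finset.mul_sum]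
        _ ≤ _ := by
            have : (2 : ℝ) ^ N * bU p 0 (A 0 0) (B 0 0) ≤ 0 :=
              mul_nonpos_of_nonneg_of_nonpos (by positivity) h3
            linarith
  · have hq : 0 < p - 1 := by linarith
    refine ⟨(2 / (p - 1)) ^ p + 2 / (p - 1) * (1 + 2 / (p - 1)) ^ (p - 1), ?_, ?_⟩
    · positivity
    · intro A B h N
      have h1 := h.sum_le (fun x y => - bU p 0 y x) (fun x y h k hk => by
        have := bU0_mid_p_le h2.le hp y x k h hk
        linarith) N
      have h3 : - bU p 0 (B 0 0) (A 0 0) ≤ 0 := by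
        rw [bU0_eq hp, ← mul_neg]
        refine mul_nonpos_of_nonneg_of_nonpos (by positivity) ?_
        have := h.h0
        have := abs_nonneg (A 0 0)
        have := abs_nonneg (B 0 0)
        nlinarith
      calc ∑ k ∈ Finset.range (2 ^ N), |B N k| ^ p
          ≤ ∑ k ∈ Finset.range (2 ^ N),
            (((2 / (p - 1)) ^ p + 2 / (p - 1) * (1 + 2 / (p - 1)) ^ (p - 1)) * |A N k| ^ p
              + 2 / (p - 1) * (- bU p 0 (B N k) (A N k))) :=
            Finset.sum_le_sum fun k _ => major_le h2.le hp _ _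
        _ = ((2 / (p - 1)) ^ p + 2 / (p - 1) * (1 + 2 / (p - 1)) ^ (p - 1)) *
              ∑ k ∈ Finset.range (2 ^ N), |A N k| ^ p
              + 2 / (p - 1) * ∑ k ∈ Finset.range (2 ^ N), (- bU p 0 (B N k) (A N k)) := by
            rw [Finset.sum_add_distrib, Finset.mul_sum, Finset.mul_sum]
        _ ≤ _ := by
            have h5 : (2 : ℝ) ^ N * (- bU p 0 (B 0 0) (A 0 0)) ≤ 0 :=
              mul_nonpos_of_nonneg_of_nonpos (by positivity) h3
            have h6 : 2 / (p - 1) * ∑ k ∈ Finset.range (2 ^ N), (- bU p 0 (B N k) (A N k)) ≤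
              2 / (p - 1) * 0 := by
              gcongr
              linarith
            linarith

/-- complex dyadic martingale pair -/
structure CSub (A B : ℕ → ℕ → ℂ) : Prop where
  hA : ∀ n k, A n k = (A (n + 1) (2 * k) + A (n + 1) (2 * k + 1)) / 2
  hB : ∀ n k, B n k = (B (n + 1) (2 * k) + B (n + 1) (2 * k + 1)) / 2
  hd : ∀ n k, ∃ ε : ℝ, |ε| ≤ 1 ∧ B (n + 1) (2 * k) - B (n + 1) (2 * k + 1)
    = ε * (A (n + 1) (2 * k) - A (n + 1) (2 * k + 1))
  h0 : ∃ ε : ℝ, |ε| ≤ 1 ∧ B 0 0 = ε * A 0 0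

lemma CSub.re {A B : ℕ → ℕ → ℂ} (h : CSub A B) :
    Sub (fun n k => (A n k).re) (fun n k => (B n k).re) where
  hA n k := by
    have := congrArg Complex.re (h.hA n k)
    simpa using this
  hB n k := by
    have := congrArg Complex.re (h.hB n k)
    simpa using this
  hd n k := by
    obtain ⟨ε, h1, h2⟩ := h.hd n k
    have := congrArg Complex.re h2
    simp at this
    rw [this, abs_mul]
    have := abs_nonneg ((A (n + 1) (2 * k)).re - (A (n + 1) (2 * k + 1)).re)
    nlinarith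
  h0 := by
    obtain ⟨ε, h1, h2⟩ := h.h0
    have := congrArg Complex.re h2
    simp at this
    rw [this, abs_mul]
    have := abs_nonneg (A 0 0).re
    nlinarith

lemma CSub.im {A B : ℕ → ℕ → ℂ} (h : CSub A B) :
    Sub (fun n k => (A n k).im) (fun n k => (B n k).im) where
  hA n k := by
    have := congrArg Complex.im (h.hA n k)
    simpa using this
  hB n k := by
    have := congrArg Complex.im (h.hB n k)
    simpa using this
  hd n k := by
    obtain ⟨ε, h1, h2⟩ := h.hd n k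
    have := congrArg Complex.im h2
    simp at this
    rw [this, abs_mul]
    have := abs_nonneg ((A (n + 1) (2 * k)).im - (A (n + 1) (2 * k + 1)).im)
    nlinarith
  h0 := by
    obtain ⟨ε, h1, h2⟩ := h.h0
    have := congrArg Complex.im h2
    simp at this
    rw [this, abs_mul]
    have := abs_nonneg (A 0 0).im
    nlinarith

lemma norm_rpow_le_re_im {p : ℝ} (hp : 1 < p) (z : ℂ) :
    ‖z‖ ^ p ≤ 2 ^ p * (|z.re| ^ p + |z.im| ^ p) := by
  have h1 : ‖z‖ ≤ |z.re| + |z.im| := Complex.norm_le_abs_re_add_abs_im z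
  have ha := abs_nonneg z.re
  have hb := abs_nonneg z.im
  have hp0 : 0 ≤ p := by linarith
  rcases le_total |z.re| |z.im| with h | h
  · have : ‖z‖ ^ p ≤ (2 * |z.im|) ^ p := Real.rpow_le_rpow (norm_nonneg _) (by linarith) hp0
    rw [Real.mul_rpow (by norm_num) hb] at this
    have h2 : 0 ≤ |z.re| ^ p := by positivity
    have h3 : (0 : ℝ) ≤ 2 ^ p := by positivity
    nlinarith
  · have : ‖z‖ ^ p ≤ (2 * |z.re|) ^ p := Real.rpow_le_rpow (norm_nonneg _) (by linarith) hp0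
    rw [Real.mul_rpow (by norm_num) ha] at this
    have h2 : 0 ≤ |z.im| ^ p := by positivity
    have h3 : (0 : ℝ) ≤ 2 ^ p := by positivity
    nlinarith

/-- Burkholder's inequality for complex dyadic martingale pairs (real multipliers). -/
theorem burk_complex {p : ℝ} (hp : 1 < p) : ∃ C : ℝ, 0 ≤ C ∧
    ∀ (A B : ℕ → ℕ → ℂ), CSub A B → ∀ N : ℕ,
    ∑ k ∈ Finset.range (2 ^ N), ‖B N k‖ ^ p ≤ C * ∑ k ∈ Finset.range (2 ^ N), ‖A N k‖ ^ p := by
  obtain ⟨C, hC, h⟩ := burk_real hp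
  refine ⟨2 ^ p * (C + C), by positivity, ?_⟩
  intro A B hAB N
  have h1 := h _ _ hAB.re N
  have h2 := h _ _ hAB.im N
  have hp0 : 0 ≤ p := by linarith
  have h3 : ∑ k ∈ Finset.range (2 ^ N), |(A N k).re| ^ p ≤
      ∑ k ∈ Finset.range (2 ^ N), ‖A N k‖ ^ p :=
    Finset.sum_le_sum fun k _ => Real.rpow_le_rpow (abs_nonneg _) (Complex.abs_re_le_norm _) hp0
  have h4 : ∑ k ∈ Finset.range (2 ^ N), |(A N k).im| ^ p ≤
      ∑ k ∈ Finset.range (2 ^ N), ‖A N k‖ ^ p :=
    Finset.sum_le_sum fun k _ => Real.rpow_le_rpow (abs_nonneg _) (Complex.abs_im_le_norm _) hp0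
  calc ∑ k ∈ Finset.range (2 ^ N), ‖B N k‖ ^ p
      ≤ ∑ k ∈ Finset.range (2 ^ N), 2 ^ p * (|(B N k).re| ^ p + |(B N k).im| ^ p) :=
        Finset.sum_le_sum fun k _ => norm_rpow_le_re_im hp _
    _ = 2 ^ p * (∑ k ∈ Finset.range (2 ^ N), |(B N k).re| ^ p +
          ∑ k ∈ Finset.range (2 ^ N), |(B N k).im| ^ p) := by
        rw [← Finset.mul_sum, Finset.sum_add_distrib]
    _ ≤ 2 ^ p * (C * ∑ k ∈ Finset.range (2 ^ N), ‖A N k‖ ^ p +
          C * ∑ k ∈ Finset.range (2 ^ N), ‖A N k‖ ^ p) := by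
        have h5 : C * ∑ k ∈ Finset.range (2 ^ N), |(A N k).re| ^ p ≤
          C * ∑ k ∈ Finset.range (2 ^ N), ‖A N k‖ ^ p := by gcongr
        have h6 : C * ∑ k ∈ Finset.range (2 ^ N), |(A N k).im| ^ p ≤
          C * ∑ k ∈ Finset.range (2 ^ N), ‖A N k‖ ^ p := by gcongr
        gcongr <;> linarith
    _ = _ := by ring

end Pool.Agent.Helper37
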