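import Pool.Agent.Helper37.Haar3

set_option autoImplicit false

namespace Pool.Agent.Helper37

open MeasureTheory Filter Topology
open scoped ENNReal

section circ

variable [h1 : Fact ((0 : ℝ) < 1)]

/-- representative in `[0,1)` -/
noncomputable def rp (t : AddCircle (1 : ℝ)) : ℝ := (AddCircle.measurableEquivIco 1 0 t : ℝ)

lemma rp_mem (t : AddCircle (1 : ℝ)) : rp t ∈ Set.Ico (0 : ℝ) 1 := by
  have := (AddCircle.measurableEquivIco (1 : ℝ) 0 t).2
  simpa [rp] using this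

lemma measurable_rp : Measurable rp :=
  measurable_subtype_coe.comp (AddCircle.measurableEquivIco (1 : ℝ) 0).measurable

lemma mk_rp (t : AddCircle (1 : ℝ)) : ((rp t : ℝ) : AddCircle (1 : ℝ)) = t :=
  (AddCircle.measurableEquivIco (1 : ℝ) 0).symm_apply_apply t

lemma rp_mk {x : ℝ} (hx : x ∈ Set.Ico (0 : ℝ) 1) : rp (x : AddCircle (1 : ℝ)) = x := by
  have hx' : x ∈ Set.Ico (0 : ℝ) (0 + 1) := by simpa using hx
  have := (AddCircle.measurableEquivIco (1 : ℝ) 0).apply_symm_apply ⟨x, hx'⟩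
  exact congrArg Subtype.val this

/-- dyadic digit function -/
noncomputable def kap (n : ℕ) (t : AddCircle (1 : ℝ)) : ℕ := ⌊(2 : ℝ) ^ n * rp t⌋₊

lemma kap_le (n : ℕ) (t : AddCircle (1 : ℝ)) : (kap n t : ℝ) / 2 ^ n ≤ rp t := by
  rw [div_le_iff₀ (by positivity), mul_comm]
  exact Nat.floor_le (mul_nonneg (by positivity) (rp_mem t).1)

lemma lt_kap (n : ℕ) (t : AddCircle (1 : ℝ)) : rp t - (kap n t : ℝ) / 2 ^ n < (2 ^ n)⁻¹ := by
  have h := Nat.lt_floor_add_one ((2 : ℝ) ^ n * rp t)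
  change _ < (kap n t : ℝ) + 1 at h
  have h2 : (0 : ℝ) < 2 ^ n := by positivity
  rw [sub_lt_iff_lt_add, ← one_div, ← add_div, lt_div_iff₀ h2]
  linarith

lemma dyadic_kap : Dyadic (volume : Measure (AddCircle (1 : ℝ))) kap where
  meas n := Nat.measurable_floor.comp (measurable_rp.const_mul _)
  half n t := by
    unfold kap
    rw [← Nat.floor_div_ofNat]
    congr 1
    rw [pow_succ]
    norm_num
    ring
  lt n t := by
    unfold kap
    have h := rp_mem t
    rw [Nat.floor_lt (mul_nonneg (by positivity) h.1)]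
    push_cast
    have h2 : (0 : ℝ) < 2 ^ n := by positivity
    have := h.2
    nlinarith
  vol n k hk := by
    have hm : MeasurableSet (kap n ⁻¹' {k}) :=
      (Nat.measurable_floor.comp (measurable_rp.const_mul _)) (measurableSet_singleton k)
    rw [← (AddCircle.measurePreserving_mk (1 : ℝ) 0).measure_preimage hm.nullMeasurableSet]
    have h2 : (0 : ℝ) < 2 ^ n := by positivity
    rw [zero_add, ← restrict_Ico_eq_restrict_Ioc, Measure.restrict_apply
      ((AddCircle.measurePreserving_mk (1 : ℝ) 0).measurable hm)]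
    have e : ((fun x : ℝ => (x : AddCircle (1 : ℝ))) ⁻¹' (kap n ⁻¹' {k}) ∩ Set.Ico (0 : ℝ) 1) =
        Set.Ico ((k : ℝ) / 2 ^ n) (((k : ℝ) + 1) / 2 ^ n) := by
      ext x
      simp only [Set.mem_inter_iff, Set.mem_preimage, Set.mem_singleton_iff]
      constructor
      · rintro ⟨h3, h4⟩
        unfold kap at h3
        rw [rp_mk h4, Nat.floor_eq_iff (mul_nonneg h2.le h4.1)] at h3
        constructor
        · rw [div_le_iff₀ h2]; linarith [h3.1]
        · rw [lt_div_iff₀ h2]; linarith [h3.2]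
      · rintro ⟨h3, h4⟩
        rw [div_le_iff₀ h2] at h3
        rw [lt_div_iff₀ h2] at h4
        have hk' : (k : ℝ) + 1 ≤ 2 ^ n := by exact_mod_cast hk
        have hx : x ∈ Set.Ico (0 : ℝ) 1 := by
          constructor
          · have h5 : (0 : ℝ) ≤ k := Nat.cast_nonneg k
            by_contra h6
            push Not at h6
            nlinarith
          · by_contra h6
            push Not at h6
            nlinarith
        refine ⟨?_, hx⟩
        unfold kap
        rw [rp_mk hx, Nat.floor_eq_iff (mul_nonneg h2.le hx.1)]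
        constructor <;> linarith
    change volume ((fun x : ℝ => (x : AddCircle (1 : ℝ))) ⁻¹' (kap n ⁻¹' {k}) ∩
      Set.Ico (0 : ℝ) 1) = _
    rw [e, Real.volume_Ico]
    have e3 : ((k : ℝ) + 1) / 2 ^ n - (k : ℝ) / 2 ^ n = (2 ^ n)⁻¹ := by
      field_simp; ring
    rw [e3, ENNReal.ofReal_inv_of_pos h2, ENNReal.ofReal_pow (by norm_num)]
    norm_num

lemma dist_kap (n : ℕ) (t : AddCircle (1 : ℝ)) :
    dist t (((kap n t : ℝ) / 2 ^ n : ℝ) : AddCircle (1 : ℝ)) ≤ (2 ^ n)⁻¹ := by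
  have h2 := kap_le n t
  have h3 := lt_kap n t
  have h4 := mk_rp t
  generalize kap n t = k at *
  generalize rp t = x at *
  subst h4
  rw [dist_eq_norm, ← AddCircle.coe_sub]
  refine (QuotientAddGroup.norm_mk_le_norm (S := AddSubgroup.zmultiples (1 : ℝ))).trans ?_
  rw [Real.norm_eq_abs, abs_of_nonneg (by linarith)]
  exact h3.le

lemma dense_kap (p : ℝ≥0∞) [Fact (1 ≤ p)] (hp : p ≠ ∞) : dyadic_kap.Dense p := by
  intro f ε hε
  have hd := ContinuousMap.toLp_denseRange ℂ (volume : Measure (AddCircle (1 : ℝ))) ℂ hp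
  obtain ⟨g, hg⟩ := Metric.denseRange_iff.mp hd f (ε / 2) (by positivity)
  have hu := CompactSpace.uniformContinuous_of_continuous g.continuous
  obtain ⟨δ, hδ, hgδ⟩ := Metric.uniformContinuous_iff.mp hu (ε / 4) (by positivity)
  obtain ⟨n, hn⟩ := exists_pow_lt_of_lt_one hδ (by norm_num : (2 : ℝ)⁻¹ < 1)
  rw [inv_pow] at hn
  set c : ℕ → ℂ := fun k => g (((k : ℝ) / 2 ^ n : ℝ) : AddCircle (1 : ℝ)) with hc
  refine ⟨n, dyadic_kap.step p n c, ⟨c, rfl⟩, ?_⟩
  have hprob := dyadic_kap.isProb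
  have h2 : ‖ContinuousMap.toLp p volume ℂ g - dyadic_kap.step p n c‖ ≤ ε / 4 := by
    have h3 : ∀ᵐ t ∂(volume : Measure (AddCircle (1 : ℝ))),
        ‖(ContinuousMap.toLp p volume ℂ g - dyadic_kap.step p n c : Lp ℂ p volume) t‖ ≤ ε / 4 := by
      filter_upwards [Lp.coeFn_sub (ContinuousMap.toLp p volume ℂ g) (dyadic_kap.step p n c),
        ContinuousMap.coeFn_toLp (p := p) (𝕜 := ℂ) volume g, dyadic_kap.step_coe p n c]
        with t e1 e2 e3
      rw [e1, Pi.sub_apply, e2, e3, ← dist_eq_norm]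
      exact (hgδ (lt_of_le_of_lt (dist_kap n t) hn)).le
    have h4 := Lp.norm_le_of_ae_bound (by positivity) h3
    simpa [measureUnivNNReal] using h4
  rw [dist_eq_norm] at hg
  calc ‖f - dyadic_kap.step p n c‖ =
        ‖(f - ContinuousMap.toLp p volume ℂ g) +
          (ContinuousMap.toLp p volume ℂ g - dyadic_kap.step p n c)‖ := by congr 1; abel
    _ ≤ _ := norm_add_le _ _
    _ < ε := by linarith

lemma norm_exp_sub_exp (x y : ℝ) :
    ‖Complex.exp (Complex.I * x) - Complex.exp (Complex.I * y)‖ ≤ |x - y| := by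
  have e : Complex.exp (Complex.I * x) - Complex.exp (Complex.I * y) =
      Complex.exp (Complex.I * y) * (Complex.exp (Complex.I * ((x - y : ℝ) : ℂ)) - 1) := by
    rw [mul_sub, ← Complex.exp_add, mul_one]
    congr 2
    push_cast
    ring
  rw [e, norm_mul, Complex.norm_exp_I_mul_ofReal, one_mul, ← Real.norm_eq_abs]
  exact Real.norm_exp_I_mul_ofReal_sub_one_le

lemma fourier_kap (N : ℕ) (t : AddCircle (1 : ℝ)) :
    ‖fourier (1 : ℤ) t - fourier (1 : ℤ) (((kap N t : ℝ) / 2 ^ N : ℝ) : AddCircle (1 : ℝ))‖ ≤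
      2 * Real.pi * ((2 : ℝ) ^ N)⁻¹ := by
  have h2 := kap_le N t
  have h3 := lt_kap N t
  have h4 := mk_rp t
  generalize kap N t = k at *
  generalize rp t = x at *
  subst h4
  rw [fourier_coe_apply, fourier_coe_apply]
  have e : ∀ x : ℝ, (2 * Real.pi * Complex.I * ((1 : ℤ) : ℂ) * x / ((1 : ℝ) : ℂ) : ℂ) =
      Complex.I * ((2 * Real.pi * x : ℝ) : ℂ) := by
    intro x; push_cast; ring
  rw [e, e]
  refine (norm_exp_sub_exp _ _).trans ?_
  rw [← mul_sub, abs_mul, abs_of_pos (by positivity : 0 < 2 * Real.pi),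
    abs_of_nonneg (by linarith)]
  gcongr

theorem circle_main (p : ℝ≥0∞) [Fact (1 ≤ p)] (hp1 : 1 < p) (hp : p ≠ ∞) :
      ∃ (D K : Lp ℂ p (volume : Measure (AddCircle (1:ℝ))) →L[ℂ]
                Lp ℂ p (volume : Measure (AddCircle (1:ℝ)))),
        (∃ e : ℕ → Lp ℂ p (volume : Measure (AddCircle (1:ℝ))),
            (∀ f : Lp ℂ p (volume : Measure (AddCircle (1:ℝ))),
                ∃! a : ℕ → ℂ, HasSum (fun n => a n • e n) f) ∧
            ∃ c : ℕ → ℂ, ∀ n, D (e n) = c n • e n) ∧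
        (∃ C : ℝ, ∀ (n : ℕ) (x : Fin n → Lp ℂ p (volume : Measure (AddCircle (1:ℝ)))) (B : ℝ),
            (∀ φ : Lp ℂ p (volume : Measure (AddCircle (1:ℝ))) →L[ℂ] ℂ,
                ‖φ‖ ≤ 1 → ∑ i, ‖φ (x i)‖ ≤ B) →
            ∑ i, ‖K (x i)‖ ≤ C * B) ∧
        ∀ f : Lp ℂ p (volume : Measure (AddCircle (1:ℝ))),
          ∀ᵐ t ∂(volume : Measure (AddCircle (1:ℝ))),
            fourier (1:ℤ) t * f t = D f t + K f t := by
  have hz : MemLp (fun t : AddCircle (1 : ℝ) => fourier (1 : ℤ) t) ∞ volume := by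
    refine memLp_top_of_bound ?_ 1 (ae_of_all _ fun t => ?_)
    · exact (fourier (1 : ℤ)).continuous.aestronglyMeasurable
    · simp
  exact dyadic_kap.decomposition p hp1 hp (dense_kap p hp) hz
    (fun N k => fourier (1 : ℤ) (((k : ℝ) / 2 ^ N : ℝ) : AddCircle (1 : ℝ))) fourier_kap

end circ

end Pool.Agent.Helper37
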