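import Mathlib

set_option autoImplicit false

namespace Pool.Agent.Helper37

open Real

/-- sign attached to a subset -/
noncomputable def sg (s : Finset ℕ) (k : ℕ) : ℝ := if k ∈ s then 1 else -1

lemma abs_sg (s : Finset ℕ) (k : ℕ) : |sg s k| = 1 := by
  unfold sg; split_ifs <;> simp

/-- Rademacher sum -/
noncomputable def rad (U s : Finset ℕ) (a : ℕ → ℂ) : ℂ := ∑ k ∈ U, (sg s k : ℂ) * a k

lemma rad_insert_not {U s : Finset ℕ} {j : ℕ} (hj : j ∉ U) (hs : s ∈ U.powerset) (a : ℕ → ℂ) :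
    rad (insert j U) s a = rad U s a - a j := by
  unfold rad
  rw [Finset.sum_insert hj]
  have : j ∉ s := fun h => hj (Finset.mem_powerset.mp hs h)
  simp [sg, this]; ring

lemma rad_insert_mem {U s : Finset ℕ} {j : ℕ} (hj : j ∉ U) (a : ℕ → ℂ) :
    rad (insert j U) (insert j s) a = rad U s a + a j := by
  unfold rad
  rw [Finset.sum_insert hj]
  have h1 : ∑ k ∈ U, (sg (insert j s) k : ℂ) * a k = ∑ k ∈ U, (sg s k : ℂ) * a k := by
    refine Finset.sum_congr rfl fun k hk => ?_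
    have : k ≠ j := fun h => hj (h ▸ hk)
    simp [sg, this]
  rw [h1]
  simp [sg]; ring

lemma norm_sq_add_sub (x a : ℂ) : ‖x - a‖ ^ 2 + ‖x + a‖ ^ 2 = 2 * (‖x‖ ^ 2 + ‖a‖ ^ 2) := by
  simp only [← Complex.normSq_eq_norm_sq, Complex.normSq_apply, Complex.sub_re, Complex.sub_im,
    Complex.add_re, Complex.add_im]
  ring

lemma norm_four_add_sub (x a : ℂ) :
    ‖x - a‖ ^ 4 + ‖x + a‖ ^ 4 ≤ 2 * (‖x‖ ^ 4 + 6 * ‖x‖ ^ 2 * ‖a‖ ^ 2 + ‖a‖ ^ 4) := by
  have e : ∀ z : ℂ, ‖z‖ ^ 4 = (‖z‖ ^ 2) ^ 2 := fun z => by ring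
  simp only [e]
  simp only [← Complex.normSq_eq_norm_sq, Complex.normSq_apply, Complex.sub_re, Complex.sub_im,
    Complex.add_re, Complex.add_im]
  nlinarith [sq_nonneg (x.re * a.im - x.im * a.re)]

lemma sum_rad_sq (U : Finset ℕ) (a : ℕ → ℂ) :
    ∑ s ∈ U.powerset, ‖rad U s a‖ ^ 2 = 2 ^ U.card * ∑ k ∈ U, ‖a k‖ ^ 2 := by
  classical
  induction U using Finset.induction_on with
  | empty => simp [rad]
  | insert j U hj ih =>
    rw [Finset.sum_powerset_insert hj, ← Finset.sum_add_distrib, Finset.sum_insert hj,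
      Finset.card_insert_of_notMem hj]
    have h1 : ∑ s ∈ U.powerset, (‖rad (insert j U) s a‖ ^ 2 +
        ‖rad (insert j U) (insert j s) a‖ ^ 2) =
        ∑ s ∈ U.powerset, 2 * (‖rad U s a‖ ^ 2 + ‖a j‖ ^ 2) := by
      refine Finset.sum_congr rfl fun s hs => ?_
      rw [rad_insert_not hj hs, rad_insert_mem hj, norm_sq_add_sub]
    rw [h1, ← Finset.mul_sum, Finset.sum_add_distrib, ih, Finset.sum_const, Finset.card_powerset,
      nsmul_eq_mul]
    push_cast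
    ring

lemma sum_rad_four (U : Finset ℕ) (a : ℕ → ℂ) :
    ∑ s ∈ U.powerset, ‖rad U s a‖ ^ 4 ≤ 3 * 2 ^ U.card * (∑ k ∈ U, ‖a k‖ ^ 2) ^ 2 := by
  classical
  induction U using Finset.induction_on with
  | empty => simp [rad]
  | insert j U hj ih =>
    have hsq := sum_rad_sq U a
    rw [Finset.sum_powerset_insert hj, ← Finset.sum_add_distrib, Finset.sum_insert hj,
      Finset.card_insert_of_notMem hj]
    have h1 : ∑ s ∈ U.powerset, (‖rad (insert j U) s a‖ ^ 4 +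
        ‖rad (insert j U) (insert j s) a‖ ^ 4) ≤
        ∑ s ∈ U.powerset, 2 * (‖rad U s a‖ ^ 4 + 6 * ‖rad U s a‖ ^ 2 * ‖a j‖ ^ 2 + ‖a j‖ ^ 4) := by
      refine Finset.sum_le_sum fun s hs => ?_
      rw [rad_insert_not hj hs, rad_insert_mem hj]
      exact norm_four_add_sub _ _
    refine h1.trans ?_
    rw [← Finset.mul_sum, Finset.sum_add_distrib, Finset.sum_add_distrib, Finset.sum_const,
      Finset.card_powerset, nsmul_eq_mul]
    have h2 : ∑ s ∈ U.powerset, 6 * ‖rad U s a‖ ^ 2 * ‖a j‖ ^ 2 =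
        6 * (2 ^ U.card * ∑ k ∈ U, ‖a k‖ ^ 2) * ‖a j‖ ^ 2 := by
      rw [← hsq, Finset.mul_sum, Finset.sum_mul]
    rw [h2]
    push_cast
    generalize ∑ k ∈ U, ‖a k‖ ^ 2 = S at *
    have h3 : (0 : ℝ) ≤ 2 ^ U.card := by positivity
    have h4 : 0 ≤ ‖a j‖ ^ 4 := by positivity
    have e : (2 : ℝ) ^ (U.card + 1) = 2 * 2 ^ U.card := by ring
    rw [e]
    nlinarith [mul_nonneg h3 h4]

/-- Khinchine's inequality (L1 vs L2) with constant `√3`. -/
lemma khinchine (U : Finset ℕ) (a : ℕ → ℂ) :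
    2 ^ U.card * Real.sqrt (∑ k ∈ U, ‖a k‖ ^ 2) ≤ Real.sqrt 3 * ∑ s ∈ U.powerset, ‖rad U s a‖ := by
  have hsq := sum_rad_sq U a
  have h4 := sum_rad_four U a
  set S := ∑ k ∈ U, ‖a k‖ ^ 2 with hS
  have hS0 : 0 ≤ S := by positivity
  rcases hS0.eq_or_lt with h0 | hpos
  · rw [← h0]; simp; positivity
  · -- pointwise: t ≥ (3 t^2/λ - t^4/λ^3)/2 with λ^2 = 3 S
    set L := Real.sqrt (3 * S) with hL
    have hLpos : 0 < L := by positivity
    have hL2 : L ^ 2 = 3 * S := Real.sq_sqrt (by positivity)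
    have hpt : ∀ t : ℝ, 0 ≤ t → (3 * t ^ 2 * L ^ 2 - t ^ 4) ≤ 2 * L ^ 3 * t := by
      intro t ht
      have : 0 ≤ t * (t - L) ^ 2 * (t + 2 * L) := by positivity
      nlinarith
    have h5 : ∑ s ∈ U.powerset, (3 * ‖rad U s a‖ ^ 2 * L ^ 2 - ‖rad U s a‖ ^ 4) ≤
        ∑ s ∈ U.powerset, 2 * L ^ 3 * ‖rad U s a‖ :=
      Finset.sum_le_sum fun s _ => hpt _ (norm_nonneg _)
    rw [Finset.sum_sub_distrib, ← Finset.sum_mul, ← Finset.mul_sum, ← Finset.mul_sum, hsq] at h5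
    set M := ∑ s ∈ U.powerset, ‖rad U s a‖ with hM
    -- 3 * (2^n S) * L^2 - 3 * 2^n * S^2 ≤ 2 L^3 M ; L^2 = 3S
    have h6 : 3 * (2 ^ U.card * S) * L ^ 2 - 3 * 2 ^ U.card * S ^ 2 ≤ 2 * L ^ 3 * M := by linarith
    rw [show L ^ 3 = L ^ 2 * L by ring, hL2] at h6
    have h7 : 2 ^ U.card * S ≤ L * M := by
      have : 6 * S * (2 ^ U.card * S) ≤ 6 * S * (L * M) := by nlinarith
      exact le_of_mul_le_mul_left this (by positivity)
    have h8 : L = Real.sqrt 3 * Real.sqrt S := by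
      rw [hL, Real.sqrt_mul (by norm_num)]
    have h9 : S = Real.sqrt S * Real.sqrt S := (Real.mul_self_sqrt hS0).symm
    have h10 : 0 < Real.sqrt S := by positivity
    have h11 : (2 ^ U.card * Real.sqrt S) * Real.sqrt S ≤ (Real.sqrt 3 * M) * Real.sqrt S := by
      calc (2 ^ U.card * Real.sqrt S) * Real.sqrt S = 2 ^ U.card * S := by
            rw [mul_assoc, ← h9]
        _ ≤ L * M := h7
        _ = _ := by rw [h8]; ring
    exact le_of_mul_le_mul_right h11 h10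

end Pool.Agent.Helper37
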