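import Pool.Agent.Helper37.Burk2
import Pool.Agent.Helper37.Khin

set_option autoImplicit false

namespace Pool.Agent.Helper37

open MeasureTheory Filter Topology
open scoped ENNReal

variable {Ω : Type*} [MeasurableSpace Ω]

/-- a dyadic filtration of a probability space, coded by functions to `ℕ`. -/
structure Dyadic (μ : Measure Ω) (κ : ℕ → Ω → ℕ) : Prop where
  meas : ∀ n, Measurable (κ n)
  half : ∀ n ω, κ n ω = κ (n + 1) ω / 2
  lt : ∀ n ω, κ n ω < 2 ^ n
  vol : ∀ n k, k < 2 ^ n → μ (κ n ⁻¹' {k}) = ((2 : ℝ≥0∞) ^ n)⁻¹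

lemma Dyadic.isProb {μ : Measure Ω} {κ : ℕ → Ω → ℕ} (D : Dyadic μ κ) : IsProbabilityMeasure μ :=
  ⟨by
    have h := D.vol 0 0 (by norm_num)
    have h2 : κ 0 ⁻¹' {0} = Set.univ := by
      ext ω; have := D.lt 0 ω; simp at this ⊢; exact this
    rw [h2] at h; simpa using h⟩

section setI

variable {μ : Measure Ω} [IsProbabilityMeasure μ] (p : ℝ≥0∞) [Fact (1 ≤ p)]

lemma Lp_integrable {p : ℝ≥0∞} [hp : Fact (1 ≤ p)] (f : Lp ℂ p μ) : Integrable f μ :=
  (Lp.memLp f).integrable hp.out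

lemma integral_norm_le_norm {p : ℝ≥0∞} [hp : Fact (1 ≤ p)] (f : Lp ℂ p μ) :
    ∫ ω, ‖f ω‖ ∂μ ≤ ‖f‖ := by
  rw [integral_norm_eq_lintegral_enorm (Lp.aestronglyMeasurable f), Lp.norm_def,
    ← eLpNorm_one_eq_lintegral_enorm]
  exact ENNReal.toReal_mono (Lp.eLpNorm_ne_top f)
    (eLpNorm_le_eLpNorm_of_exponent_le hp.out (Lp.aestronglyMeasurable f))

/-- integration over a set as a continuous functional on `Lp` -/
noncomputable def setI (S : Set Ω) : Lp ℂ p μ →L[ℂ] ℂ :=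
  LinearMap.mkContinuous
    { toFun := fun f => ∫ ω in S, f ω ∂μ
      map_add' := fun f g => by
        rw [← integral_add (Lp_integrable f).integrableOn (Lp_integrable g).integrableOn]
        refine integral_congr_ae (ae_restrict_of_ae ?_)
        filter_upwards [Lp.coeFn_add f g] with ω h
        rw [h]; rfl
      map_smul' := fun c f => by
        simp only [RingHom.id_apply, smul_eq_mul]
        rw [← integral_const_mul]
        refine integral_congr_ae (ae_restrict_of_ae ?_)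
        filter_upwards [Lp.coeFn_smul c f] with ω h
        rw [h]; rfl }
    1 (fun f => by
      simp only [LinearMap.coe_mk, AddHom.coe_mk, one_mul]
      refine (norm_integral_le_integral_norm _).trans ?_
      refine le_trans ?_ (integral_norm_le_norm f)
      exact setIntegral_le_integral (Lp_integrable f).norm (ae_of_all _ fun ω => norm_nonneg _))

lemma setI_apply (S : Set Ω) (f : Lp ℂ p μ) : setI p S f = ∫ ω in S, f ω ∂μ := rfl

end setI

section integrals

variable {μ : Measure Ω} {κ : ℕ → Ω → ℕ} (D : Dyadic μ κ)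
include D

lemma Dyadic.mset (n k : ℕ) : MeasurableSet (κ n ⁻¹' {k}) := D.meas n (measurableSet_singleton k)

lemma Dyadic.volR (n k : ℕ) (hk : k < 2 ^ n) : μ.real (κ n ⁻¹' {k}) = ((2 : ℝ) ^ n)⁻¹ := by
  rw [Measure.real, D.vol n k hk]; simp

lemma Dyadic.eq_sum_indicator {E : Type*} [NormedAddCommGroup E] (n : ℕ) (g : ℕ → E) (ω : Ω) :
    g (κ n ω) = ∑ k ∈ Finset.range (2 ^ n), (κ n ⁻¹' {k}).indicator (fun _ => g k) ω := by
  rw [Finset.sum_eq_single (κ n ω)]
  · simp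
  · intro b _ hb
    rw [Set.indicator_of_notMem]
    simpa using Ne.symm hb
  · intro h
    exact absurd (Finset.mem_range.mpr (D.lt n ω)) h

lemma Dyadic.integral_comp {E : Type*} [NormedAddCommGroup E] [NormedSpace ℝ E] [CompleteSpace E]
    (n : ℕ) (g : ℕ → E) :
    ∫ ω, g (κ n ω) ∂μ = ∑ k ∈ Finset.range (2 ^ n), ((2 : ℝ) ^ n)⁻¹ • g k := by
  have := D.isProb
  have h : (fun ω => g (κ n ω)) = fun ω => ∑ k ∈ Finset.range (2 ^ n),
      (κ n ⁻¹' {k}).indicator (fun _ => g k) ω := funext fun ω => D.eq_sum_indicator n g ω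
  rw [h, integral_finset_sum]
  · refine Finset.sum_congr rfl fun k hk => ?_
    rw [integral_indicator_const _ (D.mset n k), D.volR n k (Finset.mem_range.mp hk)]
  · intro k _
    exact (integrable_const _).indicator (D.mset n k)

lemma Dyadic.setIntegral_comp {E : Type*} [NormedAddCommGroup E] [NormedSpace ℝ E]
    [CompleteSpace E] (n k : ℕ) (hk : k < 2 ^ n) (g : ℕ → E) :
    ∫ ω in κ n ⁻¹' {k}, g (κ n ω) ∂μ = ((2 : ℝ) ^ n)⁻¹ • g k := by
  have := D.isProb
  rw [setIntegral_congr_fun (g := fun _ => g k) (D.mset n k) (fun ω hω => by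
    have : κ n ω = k := hω
    simp only [this]), setIntegral_const, D.volR n k hk]

lemma Dyadic.preimage_split (n k : ℕ) :
    κ n ⁻¹' {k} = κ (n + 1) ⁻¹' {2 * k} ∪ κ (n + 1) ⁻¹' {2 * k + 1} := by
  ext ω
  simp only [Set.mem_preimage, Set.mem_singleton_iff, Set.mem_union]
  rw [D.half n ω]
  omega

omit D in
lemma disj_pre (n : ℕ) {j k : ℕ} (h : j ≠ k) : Disjoint (κ n ⁻¹' {j}) (κ n ⁻¹' {k}) := by
  rw [Set.disjoint_left]
  intro ω h1 h2
  simp only [Set.mem_preimage, Set.mem_singleton_iff] at h1 h2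
  exact h (h1.symm.trans h2)

lemma Dyadic.pre_empty (n k : ℕ) (hk : 2 ^ n ≤ k) : κ n ⁻¹' {k} = ∅ := by
  ext ω
  simp only [Set.mem_preimage, Set.mem_singleton_iff, Set.mem_empty_iff_false, iff_false]
  intro h
  have := D.lt n ω
  omega

lemma Dyadic.sum_setIntegral_norm_le {p : ℝ≥0∞} [Fact (1 ≤ p)] (f : Lp ℂ p μ) (n : ℕ) :
    ∑ k ∈ Finset.range (2 ^ n), ∫ ω in κ n ⁻¹' {k}, ‖f ω‖ ∂μ ≤ ‖f‖ := by
  have := D.isProb
  refine le_trans (le_of_eq ?_) (integral_norm_le_norm f)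
  have h : ∀ ω, ‖f ω‖ = ∑ k ∈ Finset.range (2 ^ n),
      (κ n ⁻¹' {k}).indicator (fun ω => ‖f ω‖) ω := by
    intro ω
    rw [Finset.sum_eq_single (κ n ω)]
    · simp
    · intro b _ hb
      rw [Set.indicator_of_notMem]
      simpa using Ne.symm hb
    · intro h
      exact absurd (Finset.mem_range.mpr (D.lt n ω)) h
  conv_rhs => rw [integral_congr_ae (ae_of_all _ h)]
  rw [integral_finset_sum]
  · refine Finset.sum_congr rfl fun k _ => ?_
    rw [integral_indicator (D.mset n k)]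
  · intro k _
    exact (Lp_integrable f).norm.indicator (D.mset n k)

end integrals

section step

variable {μ : Measure Ω} {κ : ℕ → Ω → ℕ} (D : Dyadic μ κ) (p : ℝ≥0∞) [Fact (1 ≤ p)]

lemma Dyadic.memLp_step (D : Dyadic μ κ) (p : ℝ≥0∞) (n : ℕ) (c : ℕ → ℂ) :
    MemLp (fun ω => c (κ n ω)) p μ := by
  have := D.isProb
  refine MemLp.of_bound ((measurable_from_nat.comp (D.meas n)).aestronglyMeasurable)
    (∑ k ∈ Finset.range (2 ^ n), ‖c k‖) (ae_of_all _ fun ω => ?_)
  exact Finset.single_le_sum (f := fun k => ‖c k‖) (fun i _ => norm_nonneg _)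
    (Finset.mem_range.mpr (D.lt n ω))

/-- level `n` step functions -/
noncomputable def Dyadic.step (n : ℕ) : (ℕ → ℂ) →ₗ[ℂ] Lp ℂ p μ where
  toFun c := (D.memLp_step p n c).toLp _
  map_add' c d := by
    rw [← MemLp.toLp_add]; rfl
  map_smul' a c := by
    simp only [RingHom.id_apply]
    rw [← MemLp.toLp_const_smul]; rfl

lemma Dyadic.step_coe (n : ℕ) (c : ℕ → ℂ) : D.step p n c =ᵐ[μ] fun ω => c (κ n ω) :=
  MemLp.coeFn_toLp (D.memLp_step p n c)

lemma Dyadic.step_congr (n : ℕ) {c d : ℕ → ℂ} (h : ∀ k < 2 ^ n, c k = d k) :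
    D.step p n c = D.step p n d := by
  refine MemLp.toLp_congr (D.memLp_step p n c) (D.memLp_step p n d) (ae_of_all _ fun ω => ?_)
  exact h _ (D.lt n ω)

lemma Dyadic.step_succ (n : ℕ) (c : ℕ → ℂ) :
    D.step p n c = D.step p (n + 1) (fun j => c (j / 2)) := by
  refine MemLp.toLp_congr (D.memLp_step p n c) (D.memLp_step p (n + 1) (fun j => c (j / 2)))
    (ae_of_all _ fun ω => ?_)
  change c (κ n ω) = c (κ (n + 1) ω / 2)
  rw [D.half n ω]

/-- average over a dyadic set, as a functional -/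
noncomputable def Dyadic.av (n k : ℕ) : Lp ℂ p μ →L[ℂ] ℂ :=
  haveI := D.isProb
  ((2 : ℂ) ^ n) • setI p (κ n ⁻¹' {k})

lemma Dyadic.av_apply (n k : ℕ) (f : Lp ℂ p μ) :
    D.av p n k f = (2 : ℂ) ^ n * ∫ ω in κ n ⁻¹' {k}, f ω ∂μ := by
  have := D.isProb
  simp [Dyadic.av, setI_apply]

lemma Dyadic.av_step (n k : ℕ) (hk : k < 2 ^ n) (c : ℕ → ℂ) :
    D.av p n k (D.step p n c) = c k := by
  rw [D.av_apply]
  rw [integral_congr_ae (ae_restrict_of_ae (D.step_coe p n c)), D.setIntegral_comp n k hk]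
  simp only [Complex.real_smul]
  push_cast
  rw [← mul_assoc, mul_inv_cancel₀ (pow_ne_zero _ two_ne_zero), one_mul]

lemma Dyadic.av_split (n k : ℕ) (f : Lp ℂ p μ) :
    D.av p n k f = (D.av p (n + 1) (2 * k) f + D.av p (n + 1) (2 * k + 1) f) / 2 := by
  have := D.isProb
  rw [D.av_apply, D.av_apply, D.av_apply, D.preimage_split n k,
    setIntegral_union (disj_pre (n + 1) (by omega)) (D.mset _ _)
      (Lp_integrable f).integrableOn (Lp_integrable f).integrableOn]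
  ring

lemma Dyadic.av_zero_of_ge (n k : ℕ) (hk : 2 ^ n ≤ k) (f : Lp ℂ p μ) : D.av p n k f = 0 := by
  rw [D.av_apply, D.pre_empty n k hk]; simp

lemma Dyadic.norm_step_rpow (hp : p ≠ ∞) (n : ℕ) (c : ℕ → ℂ) :
    ‖D.step p n c‖ ^ p.toReal =
      ((2 : ℝ) ^ n)⁻¹ * ∑ k ∈ Finset.range (2 ^ n), ‖c k‖ ^ p.toReal := by
  have hp1 : 1 ≤ p := Fact.out
  have hp0 : p ≠ 0 := (lt_of_lt_of_le zero_lt_one hp1).ne'
  have hpr : 0 < p.toReal := ENNReal.toReal_pos hp0 hp
  have h1 : ‖D.step p n c‖ = (∫ ω, ‖c (κ n ω)‖ ^ p.toReal ∂μ) ^ (p.toReal⁻¹) := by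
    have : ‖D.step p n c‖ = (eLpNorm (fun ω => c (κ n ω)) p μ).toReal :=
      Lp.norm_toLp _ (D.memLp_step p n c)
    rw [this, MemLp.eLpNorm_eq_integral_rpow_norm hp0 hp (D.memLp_step p n c),
      ENNReal.toReal_ofReal]
    positivity
  have h2 := D.integral_comp n (fun k => ‖c k‖ ^ p.toReal)
  simp only [smul_eq_mul] at h2
  rw [h1, h2, ← Finset.mul_sum, ← Real.rpow_mul, inv_mul_cancel₀ hpr.ne', Real.rpow_one]
  exact mul_nonneg (by positivity) (Finset.sum_nonneg fun k _ => by positivity)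

end step

end Pool.Agent.Helper37
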