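import Pool.Agent.Helper37.Haar1

set_option autoImplicit false

namespace Pool.Agent.Helper37

open MeasureTheory Filter Topology
open scoped ENNReal

variable {Ω : Type*} [MeasurableSpace Ω]
variable {μ : Measure Ω} {κ : ℕ → Ω → ℕ} (D : Dyadic μ κ) (p : ℝ≥0∞) [Fact (1 ≤ p)]

/-- being a level `n` step function -/
def Dyadic.IsStep (n : ℕ) (f : Lp ℂ p μ) : Prop := ∃ c, f = D.step p n c

variable {p} in
lemma Dyadic.IsStep.succ {n : ℕ} {f : Lp ℂ p μ} (h : D.IsStep p n f) : D.IsStep p (n + 1) f := by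
  obtain ⟨c, rfl⟩ := h
  exact ⟨_, D.step_succ p n c⟩

variable {p} in
lemma Dyadic.IsStep.mono {n m : ℕ} (hnm : n ≤ m) {f : Lp ℂ p μ} (h : D.IsStep p n f) :
    D.IsStep p m f := by
  induction m, hnm using Nat.le_induction with
  | base => exact h
  | succ m _ ih => exact ih.succ

variable {p} in
lemma Dyadic.IsStep.add {n : ℕ} {f g : Lp ℂ p μ} (hf : D.IsStep p n f) (hg : D.IsStep p n g) :
    D.IsStep p n (f + g) := by
  obtain ⟨c, rfl⟩ := hf
  obtain ⟨d, rfl⟩ := hg
  exact ⟨c + d, (map_add _ _ _).symm⟩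

variable {p} in
lemma Dyadic.IsStep.smul {n : ℕ} {f : Lp ℂ p μ} (a : ℂ) (hf : D.IsStep p n f) :
    D.IsStep p n (a • f) := by
  obtain ⟨c, rfl⟩ := hf
  exact ⟨a • c, (map_smul _ _ _).symm⟩

lemma Dyadic.isStep_zero (n : ℕ) : D.IsStep p n 0 := ⟨0, (map_zero _).symm⟩

lemma Dyadic.isStep_sum {ι : Type*} (n : ℕ) (F : Finset ι) (f : ι → Lp ℂ p μ)
    (h : ∀ i ∈ F, D.IsStep p n (f i)) : D.IsStep p n (∑ i ∈ F, f i) := by
  classical
  induction F using Finset.induction_on with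
  | empty => simpa using D.isStep_zero p n
  | insert a F ha ih =>
    rw [Finset.sum_insert ha]
    exact (h a (Finset.mem_insert_self a F)).add D
      (ih fun i hi => h i (Finset.mem_insert_of_mem hi))

variable {p} in
lemma Dyadic.IsStep.eq {n : ℕ} {f : Lp ℂ p μ} (h : D.IsStep p n f) :
    f = D.step p n (fun k => D.av p n k f) := by
  obtain ⟨c, rfl⟩ := h
  exact D.step_congr p n fun k hk => (D.av_step p n k hk c).symm

variable {p} in
lemma Dyadic.IsStep.norm_rpow (hp : p ≠ ∞) {n : ℕ} {f : Lp ℂ p μ} (h : D.IsStep p n f) :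
    ‖f‖ ^ p.toReal =
      ((2 : ℝ) ^ n)⁻¹ * ∑ k ∈ Finset.range (2 ^ n), ‖D.av p n k f‖ ^ p.toReal := by
  conv_lhs => rw [h.eq D]
  exact D.norm_step_rpow p hp n _

lemma Dyadic.av_succ_even (n k : ℕ) (hk : k < 2 ^ n) {f : Lp ℂ p μ} (h : D.IsStep p n f) :
    D.av p (n + 1) (2 * k) f = D.av p n k f := by
  obtain ⟨c, rfl⟩ := h
  rw [D.av_step p n k hk, D.step_succ, D.av_step]
  · congr 1; omega
  · rw [pow_succ]; omega

lemma Dyadic.av_succ_odd (n k : ℕ) (hk : k < 2 ^ n) {f : Lp ℂ p μ} (h : D.IsStep p n f) :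
    D.av p (n + 1) (2 * k + 1) f = D.av p n k f := by
  obtain ⟨c, rfl⟩ := h
  rw [D.av_step p n k hk, D.step_succ, D.av_step]
  · congr 1; omega
  · rw [pow_succ]; omega

lemma Dyadic.av_zero_down (f : Lp ℂ p μ) (n : ℕ) (h : ∀ j, D.av p n j f = 0) :
    ∀ n' ≤ n, ∀ j, D.av p n' j f = 0 := by
  induction n with
  | zero => intro n' hn' j; rw [Nat.le_zero.mp hn']; exact h j
  | succ n ih =>
    intro n' hn' j
    rcases Nat.lt_or_ge n n' with h1 | h1
    · have : n' = n + 1 := by omega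
      rw [this]; exact h j
    · refine ih (fun j => ?_) n' h1 j
      rw [D.av_split, h, h]; simp

/-- coefficients of the Haar function `(n,k)` at level `n+1` -/
def hc (k j : ℕ) : ℂ := if j = 2 * k then 1 else if j = 2 * k + 1 then -1 else 0

/-- the Haar function indexed by `(n,k)` -/
noncomputable def Dyadic.e' (n k : ℕ) : Lp ℂ p μ := D.step p (n + 1) (hc k)

/-- the Haar functional indexed by `(n,k)` -/
noncomputable def Dyadic.al' (n k : ℕ) : Lp ℂ p μ →L[ℂ] ℂ :=
  (1 / 2 : ℂ) • (D.av p (n + 1) (2 * k) - D.av p (n + 1) (2 * k + 1))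

lemma Dyadic.al'_apply (n k : ℕ) (f : Lp ℂ p μ) :
    D.al' p n k f = (D.av p (n + 1) (2 * k) f - D.av p (n + 1) (2 * k + 1) f) / 2 := by
  simp [Dyadic.al']; ring

lemma Dyadic.isStep_e' (n k : ℕ) : D.IsStep p (n + 1) (D.e' p n k) := ⟨_, rfl⟩

lemma Dyadic.av_e' (n k : ℕ) : ∀ n' ≤ n, ∀ j, D.av p n' j (D.e' p n k) = 0 := by
  refine D.av_zero_down p _ n fun j => ?_
  rcases Nat.lt_or_ge j (2 ^ n) with hj | hj
  · rw [D.av_split, Dyadic.e', D.av_step, D.av_step]
    · unfold hc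
      by_cases h : j = k
      · subst h; simp
      · have h1 : ¬ (2 * j = 2 * k) := by omega
        have h2 : ¬ (2 * j = 2 * k + 1) := by omega
        have h3 : ¬ (2 * j + 1 = 2 * k) := by omega
        have h4 : ¬ (2 * j + 1 = 2 * k + 1) := by omega
        simp [h1, h2, h3, h]
    · rw [pow_succ]; omega
    · rw [pow_succ]; omega
  · exact D.av_zero_of_ge p n j hj _

lemma Dyadic.al'_of_isStep {n k : ℕ} {f : Lp ℂ p μ} (h : D.IsStep p n f) :
    D.al' p n k f = 0 := by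
  rw [D.al'_apply]
  rcases Nat.lt_or_ge k (2 ^ n) with hk | hk
  · rw [D.av_succ_even p n k hk h, D.av_succ_odd p n k hk h]; simp
  · rw [D.av_zero_of_ge, D.av_zero_of_ge] <;> first | simp | (rw [pow_succ]; omega)

lemma Dyadic.al'_e' {n k k' : ℕ} (hk : k' < 2 ^ n) :
    D.al' p n k' (D.e' p n k) = if k' = k then 1 else 0 := by
  rw [D.al'_apply, Dyadic.e', D.av_step, D.av_step]
  · unfold hc
    by_cases h : k' = k
    · subst h; norm_num
    · have h1 : ¬ (2 * k' = 2 * k) := by omega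
      have h2 : ¬ (2 * k' = 2 * k + 1) := by omega
      have h3 : ¬ (2 * k' + 1 = 2 * k) := by omega
      have h4 : ¬ (2 * k' + 1 = 2 * k + 1) := by omega
      simp [h2, h3, h]
  · rw [pow_succ]; omega
  · rw [pow_succ]; omega

/-- the Haar system indexed by `ℕ` -/
noncomputable def Dyadic.e (m : ℕ) : Lp ℂ p μ :=
  if m = 0 then D.step p 0 (fun _ => 1) else D.e' p (Nat.log 2 m) (m - 2 ^ Nat.log 2 m)

/-- the Haar functionals indexed by `ℕ` -/
noncomputable def Dyadic.al (m : ℕ) : Lp ℂ p μ →L[ℂ] ℂ :=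
  if m = 0 then D.av p 0 0 else D.al' p (Nat.log 2 m) (m - 2 ^ Nat.log 2 m)

lemma log_add {n k : ℕ} (hk : k < 2 ^ n) : Nat.log 2 (2 ^ n + k) = n := by
  rw [Nat.log_eq_iff]
  · constructor
    · omega
    · rw [pow_succ]; omega
  · right; constructor
    · norm_num
    · positivity

lemma exists_index {m : ℕ} (hm : m ≠ 0) : ∃ n k, k < 2 ^ n ∧ m = 2 ^ n + k := by
  refine ⟨Nat.log 2 m, m - 2 ^ Nat.log 2 m, ?_, ?_⟩
  · have := Nat.lt_pow_succ_log_self (b := 2) (by norm_num) m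
    rw [pow_succ] at this
    omega
  · have := Nat.pow_log_le_self 2 hm
    omega

lemma Dyadic.e_zero : D.e p 0 = D.step p 0 (fun _ => 1) := by simp [Dyadic.e]

lemma Dyadic.e_index {n k : ℕ} (hk : k < 2 ^ n) : D.e p (2 ^ n + k) = D.e' p n k := by
  have : 2 ^ n + k ≠ 0 := by positivity
  simp only [Dyadic.e, this, if_false, log_add hk, Nat.add_sub_cancel_left]

lemma Dyadic.al_zero : D.al p 0 = D.av p 0 0 := by simp [Dyadic.al]

lemma Dyadic.al_index {n k : ℕ} (hk : k < 2 ^ n) : D.al p (2 ^ n + k) = D.al' p n k := by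
  have : 2 ^ n + k ≠ 0 := by positivity
  simp only [Dyadic.al, this, if_false, log_add hk, Nat.add_sub_cancel_left]

lemma Dyadic.al_e (m m' : ℕ) : D.al p m (D.e p m') = if m = m' then 1 else 0 := by
  rcases Nat.eq_zero_or_pos m with h | h <;> rcases Nat.eq_zero_or_pos m' with h' | h'
  · subst h; subst h'
    rw [D.al_zero, D.e_zero, D.av_step p 0 0 (by norm_num)]; simp
  · subst h
    obtain ⟨n, k, hk, rfl⟩ := exists_index h'.ne'
    rw [D.al_zero, D.e_index p hk, D.av_e' p n k 0 (Nat.zero_le _) 0, if_neg]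
    positivity
  · subst h'
    obtain ⟨n, k, hk, rfl⟩ := exists_index h.ne'
    rw [D.al_index p hk, D.e_zero, if_neg (by positivity)]
    exact D.al'_of_isStep p (Dyadic.IsStep.mono D (Nat.zero_le n) ⟨_, rfl⟩)
  · obtain ⟨n, k, hk, rfl⟩ := exists_index h.ne'
    obtain ⟨n', k', hk', rfl⟩ := exists_index h'.ne'
    rw [D.al_index p hk, D.e_index p hk']
    rcases lt_trichotomy n n' with h1 | h1 | h1
    · rw [D.al'_apply, D.av_e' p n' k' (n + 1) h1, D.av_e' p n' k' (n + 1) h1, if_neg]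
      · simp
      · intro he
        have := congrArg (Nat.log 2) he
        rw [log_add hk, log_add hk'] at this
        omega
    · subst h1
      rw [D.al'_e' p hk]
      by_cases hkk : k = k'
      · simp [hkk]
      · have : ¬ (2 ^ n + k = 2 ^ n + k') := by omega
        simp [hkk]
    · rw [D.al'_of_isStep p ((D.isStep_e' p n' k').mono D h1), if_neg]
      intro he
      have := congrArg (Nat.log 2) he
      rw [log_add hk, log_add hk'] at this
      omega

lemma Dyadic.isStep_e (m N : ℕ) (h : m < 2 ^ N) : D.IsStep p N (D.e p m) := by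
  rcases Nat.eq_zero_or_pos m with h' | h'
  · subst h'
    rw [D.e_zero]
    exact Dyadic.IsStep.mono D (Nat.zero_le N) ⟨_, rfl⟩
  · obtain ⟨n, k, hk, rfl⟩ := exists_index h'.ne'
    rw [D.e_index p hk]
    refine (D.isStep_e' p n k).mono D ?_
    have : 2 ^ n < 2 ^ N := by omega
    exact (Nat.pow_lt_pow_iff_right (by norm_num)).mp this

/-- the partial sum operator over a finite set of indices -/
noncomputable def Dyadic.P (F : Finset ℕ) : Lp ℂ p μ →L[ℂ] Lp ℂ p μ :=
  ∑ m ∈ F, (D.al p m).smulRight (D.e p m)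

lemma Dyadic.P_apply (F : Finset ℕ) (f : Lp ℂ p μ) :
    D.P p F f = ∑ m ∈ F, D.al p m f • D.e p m := by
  simp [Dyadic.P]

lemma Dyadic.al_P (F : Finset ℕ) (m : ℕ) (f : Lp ℂ p μ) :
    D.al p m (D.P p F f) = if m ∈ F then D.al p m f else 0 := by
  rw [D.P_apply, map_sum]
  simp only [map_smul, D.al_e, smul_eq_mul, mul_ite, mul_one, mul_zero]
  rw [Finset.sum_ite_eq]

lemma Dyadic.csub (F : Finset ℕ) (f : Lp ℂ p μ) :
    CSub (fun n k => D.av p n k f) (fun n k => D.av p n k (D.P p F f)) where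
  hA n k := D.av_split p n k f
  hB n k := D.av_split p n k _
  hd n k := by
    rcases Nat.lt_or_ge k (2 ^ n) with hk | hk
    · refine ⟨if 2 ^ n + k ∈ F then 1 else 0, by split_ifs <;> simp, ?_⟩
      have h1 := D.al_P p F (2 ^ n + k) f
      rw [D.al_index p hk, D.al'_apply, D.al'_apply] at h1
      split_ifs at h1 ⊢ with h
      · push_cast
        linear_combination 2 * h1
      · push_cast
        linear_combination 2 * h1
    · refine ⟨0, by simp, ?_⟩
      have h1 : 2 ^ (n + 1) ≤ 2 * k := by rw [pow_succ]; omega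
      have h2 : 2 ^ (n + 1) ≤ 2 * k + 1 := by omega
      simp only [D.av_zero_of_ge p _ _ h1, D.av_zero_of_ge p _ _ h2]
      simp
  h0 := by
    refine ⟨if 0 ∈ F then 1 else 0, by split_ifs <;> simp, ?_⟩
    have h1 := D.al_P p F 0 f
    rw [D.al_zero] at h1
    split_ifs at h1 ⊢ with h
    · simpa using h1
    · simpa using h1

lemma Dyadic.exists_norm_P_le_step (hp1 : 1 < p) (hp : p ≠ ∞) : ∃ C : ℝ, 0 ≤ C ∧
    ∀ (F : Finset ℕ) (N : ℕ) (f : Lp ℂ p μ), D.IsStep p N f → ‖D.P p F f‖ ≤ C * ‖f‖ := by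
  have hpr : 1 < p.toReal := by
    rw [← ENNReal.toReal_one]
    exact (ENNReal.toReal_lt_toReal (by simp) hp).mpr hp1
  obtain ⟨C, hC, hb⟩ := burk_complex hpr
  refine ⟨C ^ (p.toReal⁻¹), by positivity, ?_⟩
  intro F N f hf
  have hF : ∃ M, N ≤ M ∧ ∀ m ∈ F, m < 2 ^ M := by
    refine ⟨max N (F.sup id), le_max_left _ _, fun m hm => ?_⟩
    have h1 : m ≤ F.sup id := Finset.le_sup (f := id) hm
    have h2 : F.sup id < 2 ^ (F.sup id) := Nat.lt_two_pow_self
    have h3 : 2 ^ (F.sup id) ≤ 2 ^ (max N (F.sup id)) :=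
      Nat.pow_le_pow_right (by norm_num) (le_max_right _ _)
    omega
  obtain ⟨M, hNM, hM⟩ := hF
  have hfM := hf.mono D hNM
  have hPM : D.IsStep p M (D.P p F f) := by
    rw [D.P_apply]
    exact D.isStep_sum p M F _ fun m hm => (D.isStep_e p m M (hM m hm)).smul D _
  have h1 := hb _ _ (D.csub p F f) M
  have h2 : ‖D.P p F f‖ ^ p.toReal ≤ C * ‖f‖ ^ p.toReal := by
    rw [hfM.norm_rpow D hp, hPM.norm_rpow D hp]
    calc _ ≤ ((2 : ℝ) ^ M)⁻¹ * (C * ∑ k ∈ Finset.range (2 ^ M), ‖D.av p M k f‖ ^ p.toReal) := by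
          gcongr
      _ = _ := by ring
  have h3 : C * ‖f‖ ^ p.toReal = (C ^ (p.toReal⁻¹) * ‖f‖) ^ p.toReal := by
    rw [Real.mul_rpow (by positivity) (norm_nonneg _), ← Real.rpow_mul hC,
      inv_mul_cancel₀ (by linarith), Real.rpow_one]
  rw [h3] at h2
  exact (Real.rpow_le_rpow_iff (norm_nonneg _) (by positivity) (by linarith)).mp h2

/-- density of step functions -/
def Dyadic.Dense (D : Dyadic μ κ) (p : ℝ≥0∞) [Fact (1 ≤ p)] : Prop :=
  ∀ (f : Lp ℂ p μ) (ε : ℝ), 0 < ε → ∃ n g, D.IsStep p n g ∧ ‖f - g‖ < ε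

lemma Dyadic.exists_norm_P_le (hp1 : 1 < p) (hp : p ≠ ∞) (hd : D.Dense p) : ∃ C : ℝ, 0 ≤ C ∧
    ∀ (F : Finset ℕ) (f : Lp ℂ p μ), ‖D.P p F f‖ ≤ C * ‖f‖ := by
  obtain ⟨C, hC, h⟩ := D.exists_norm_P_le_step p hp1 hp
  refine ⟨C, hC, fun F f => ?_⟩
  have hcl : IsClosed {f : Lp ℂ p μ | ‖D.P p F f‖ ≤ C * ‖f‖} :=
    isClosed_le (by fun_prop) (by fun_prop)
  have hsub : {f : Lp ℂ p μ | ∃ N, D.IsStep p N f} ⊆ {f | ‖D.P p F f‖ ≤ C * ‖f‖} :=
    fun g ⟨N, hg⟩ => h F N g hg
  refine closure_minimal hsub hcl ?_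
  rw [Metric.mem_closure_iff]
  intro ε hε
  obtain ⟨n, g, hg, hfg⟩ := hd f ε hε
  exact ⟨g, ⟨n, hg⟩, by rwa [dist_eq_norm]⟩

lemma Dyadic.P_range_step {N : ℕ} {g : Lp ℂ p μ} (hp : p ≠ ∞) (hg : D.IsStep p N g) :
    D.P p (Finset.range (2 ^ N)) g = g := by
  set d := g - D.P p (Finset.range (2 ^ N)) g with hd
  have hPs : D.IsStep p N (D.P p (Finset.range (2 ^ N)) g) := by
    rw [D.P_apply]
    exact D.isStep_sum p N _ _ fun m hm =>
      (D.isStep_e p m N (Finset.mem_range.mp hm)).smul D _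
  have hds : D.IsStep p N d := by
    rw [hd, sub_eq_add_neg, ← neg_one_smul ℂ]
    exact hg.add D (hPs.smul D _)
  have hal : ∀ m < 2 ^ N, D.al p m d = 0 := by
    intro m hm
    rw [hd, map_sub, D.al_P, if_pos (Finset.mem_range.mpr hm), sub_self]
  have hav : ∀ n ≤ N, ∀ k, D.av p n k d = 0 := by
    intro n
    induction n with
    | zero =>
      intro _ k
      rcases Nat.eq_zero_or_pos k with h | h
      · subst h
        rw [← D.al_zero]; exact hal 0 (by positivity)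
      · exact D.av_zero_of_ge p 0 k (by rw [pow_zero]; exact h) _
    | succ n ih =>
      intro hn k
      have key : ∀ j < 2 ^ n, D.av p (n + 1) (2 * j) d = 0 ∧ D.av p (n + 1) (2 * j + 1) d = 0 := by
        intro j hj
        have h1 := ih (by omega) j
        rw [D.av_split] at h1
        have h2 := hal (2 ^ n + j) (by
          have : 2 ^ (n + 1) ≤ 2 ^ N := Nat.pow_le_pow_right (by norm_num) hn
          rw [pow_succ] at this
          omega)
        rw [D.al_index p hj, D.al'_apply] at h2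
        constructor
        · linear_combination h1 + h2
        · linear_combination h1 - h2
      rcases Nat.lt_or_ge k (2 ^ (n + 1)) with h | h
      · rcases Nat.even_or_odd' k with ⟨j, hj | hj⟩
        · rw [hj]; exact (key j (by rw [pow_succ] at h; omega)).1
        · rw [hj]; exact (key j (by rw [pow_succ] at h; omega)).2
      · exact D.av_zero_of_ge p _ _ h _
  have hz : d = 0 := by
    rw [hds.eq D]
    rw [D.step_congr p N (d := 0) (fun k _ => hav N le_rfl k)]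
    exact map_zero _
  rw [hd] at hz
  exact (sub_eq_zero.mp hz).symm

lemma Dyadic.P_step {N : ℕ} {g : Lp ℂ p μ} (hp : p ≠ ∞) (hg : D.IsStep p N g) {F : Finset ℕ}
    (hF : Finset.range (2 ^ N) ⊆ F) : D.P p F g = g := by
  have h0 := D.P_range_step p hp hg
  have h1 : ∀ m, m ∉ Finset.range (2 ^ N) → D.al p m g = 0 := by
    intro m hm
    rw [← h0, D.al_P, if_neg hm]
  rw [D.P_apply, ← Finset.sum_subset hF (fun m _ hm => by rw [h1 m hm, zero_smul]), ← D.P_apply, h0]

theorem Dyadic.hasSum (hp1 : 1 < p) (hp : p ≠ ∞) (hd : D.Dense p) (f : Lp ℂ p μ) :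
    HasSum (fun m => D.al p m f • D.e p m) f := by
  obtain ⟨C, hC, h⟩ := D.exists_norm_P_le p hp1 hp hd
  rw [HasSum, SummationFilter.unconditional_filter, Metric.tendsto_atTop]
  intro ε hε
  obtain ⟨N, g, hg, hfg⟩ := hd f (ε / (C + 1)) (by positivity)
  refine ⟨Finset.range (2 ^ N), fun F hF => ?_⟩
  rw [dist_eq_norm, ← D.P_apply]
  have e1 : D.P p F f - f = D.P p F (f - g) - (f - g) := by
    rw [map_sub, D.P_step p hp hg hF]; abel
  rw [e1]
  have h2 := h F (f - g)
  have h3 : (C + 1) * (ε / (C + 1)) = ε := by field_simp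
  have h4 : ‖f - g‖ * (C + 1) < ε / (C + 1) * (C + 1) := by gcongr
  calc ‖D.P p F (f - g) - (f - g)‖ ≤ ‖D.P p F (f - g)‖ + ‖f - g‖ := norm_sub_le _ _
    _ ≤ C * ‖f - g‖ + ‖f - g‖ := by linarith
    _ < ε := by nlinarith

theorem Dyadic.basis (hp1 : 1 < p) (hp : p ≠ ∞) (hd : D.Dense p) (f : Lp ℂ p μ) :
    ∃! a : ℕ → ℂ, HasSum (fun n => a n • D.e p n) f := by
  refine ⟨fun m => D.al p m f, D.hasSum p hp1 hp hd f, ?_⟩
  intro a ha
  funext m
  have h1 := (D.al p m).hasSum ha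
  have h2 : (fun n => D.al p m (a n • D.e p n)) = fun n => if n = m then a n else 0 := by
    funext n
    rw [map_smul, D.al_e]
    by_cases hnm : m = n
    · simp [hnm]
    · simp [hnm, Ne.symm hnm]
  rw [h2] at h1
  have h3 : HasSum (fun n => if n = m then a n else 0) (a m) := by
    have := hasSum_single (f := fun n => if n = m then a n else 0) m (fun b hb => by simp [hb])
    simpa using this
  exact (h1.unique h3).symm

end Pool.Agent.Helper37
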