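import Pool.Agent.Helper37.Haar2

set_option autoImplicit false

namespace Pool.Agent.Helper37

open MeasureTheory Filter Topology
open scoped ENNReal

variable {Ω : Type*} [MeasurableSpace Ω]
variable {μ : Measure Ω} {κ : ℕ → Ω → ℕ} (D : Dyadic μ κ) (p : ℝ≥0∞) [Fact (1 ≤ p)]

/-- signed sum functional -/
noncomputable def Dyadic.phi (n : ℕ) (s : Finset ℕ) : Lp ℂ p μ →L[ℂ] ℂ :=
  haveI := D.isProb
  ∑ k ∈ Finset.range (2 ^ n), (sg s k : ℂ) • setI p (κ n ⁻¹' {k})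

lemma Dyadic.phi_apply (n : ℕ) (s : Finset ℕ) (f : Lp ℂ p μ) :
    D.phi p n s f = rad (Finset.range (2 ^ n)) s (fun k => ∫ ω in κ n ⁻¹' {k}, f ω ∂μ) := by
  have := D.isProb
  simp [Dyadic.phi, setI_apply, rad]

lemma Dyadic.norm_phi_apply_le (n : ℕ) (s : Finset ℕ) (f : Lp ℂ p μ) :
    ‖D.phi p n s f‖ ≤ ‖f‖ := by
  have := D.isProb
  rw [D.phi_apply]
  unfold rad
  refine (norm_sum_le _ _).trans ?_
  refine le_trans (Finset.sum_le_sum fun k _ => ?_) (D.sum_setIntegral_norm_le f n)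
  rw [norm_mul, Complex.norm_real, Real.norm_eq_abs, abs_sg, one_mul]
  exact norm_integral_le_integral_norm _

lemma Dyadic.norm_phi_le (n : ℕ) (s : Finset ℕ) : ‖D.phi p n s‖ ≤ 1 :=
  ContinuousLinearMap.opNorm_le_bound _ zero_le_one fun f => by
    rw [one_mul]; exact D.norm_phi_apply_le p n s f

lemma sum_rpow_le_rpow_sum {ι : Type*} (F : Finset ι) (x : ι → ℝ) (hx : ∀ i ∈ F, 0 ≤ x i) {r : ℝ}
    (hr : 1 ≤ r) : ∑ i ∈ F, x i ^ r ≤ (∑ i ∈ F, x i) ^ r := by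
  set S := ∑ i ∈ F, x i with hS
  have hS0 : 0 ≤ S := Finset.sum_nonneg hx
  have h1 : ∀ i ∈ F, x i ^ r ≤ S ^ (r - 1) * x i := by
    intro i hi
    have h2 : x i ≤ S := Finset.single_le_sum hx hi
    rcases eq_or_lt_of_le hr with h | h
    · rw [← h]; simp
    · rw [rpow_split h (hx i hi)]
      have := Real.rpow_le_rpow (hx i hi) h2 (by linarith : 0 ≤ r - 1)
      have := hx i hi
      gcongr
  refine (Finset.sum_le_sum h1).trans ?_
  rw [← Finset.mul_sum, ← hS]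
  rcases eq_or_lt_of_le hr with h | h
  · rw [← h]; simp
  · rw [← rpow_split h hS0]

lemma Dyadic.norm_step_le (hp : p ≠ ∞) (n : ℕ) (c : ℕ → ℂ) :
    ‖D.step p n c‖ ≤ (((2 : ℝ) ^ n)⁻¹) ^ (1 / max p.toReal 2) *
      Real.sqrt (∑ k ∈ Finset.range (2 ^ n), ‖c k‖ ^ 2) := by
  have hp1 : 1 ≤ p := Fact.out
  have hpr : 1 ≤ p.toReal := by
    rw [← ENNReal.toReal_one]
    exact ENNReal.toReal_mono hp hp1
  have h0 := D.norm_step_rpow p hp n c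
  set S := ∑ k ∈ Finset.range (2 ^ n), ‖c k‖ ^ 2 with hS
  have hS0 : 0 ≤ S := by positivity
  have ht : (0 : ℝ) < ((2 : ℝ) ^ n)⁻¹ := by positivity
  have hpp : 0 < p.toReal := by linarith
  rcases le_total 2 p.toReal with h2 | h2
  · rw [max_eq_left h2]
    have h3 : ∑ k ∈ Finset.range (2 ^ n), ‖c k‖ ^ p.toReal ≤ S ^ (p.toReal / 2) := by
      refine le_trans (le_of_eq ?_) (sum_rpow_le_rpow_sum _ (fun k => ‖c k‖ ^ 2)
        (fun i _ => by positivity) (by linarith))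
      refine Finset.sum_congr rfl fun k _ => ?_
      rw [← Real.rpow_natCast, ← Real.rpow_mul (norm_nonneg _)]
      congr 1; push_cast; ring
    have h4 : ‖D.step p n c‖ ^ p.toReal ≤
        ((((2 : ℝ) ^ n)⁻¹) ^ (1 / p.toReal) * Real.sqrt S) ^ p.toReal := by
      rw [h0, Real.mul_rpow (by positivity) (by positivity), ← Real.rpow_mul ht.le,
        one_div_mul_cancel hpp.ne', Real.rpow_one, Real.sqrt_eq_rpow, ← Real.rpow_mul hS0]
      rw [show 1 / 2 * p.toReal = p.toReal / 2 by ring]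
      gcongr
    exact (Real.rpow_le_rpow_iff (norm_nonneg _) (by positivity) hpp).mp h4
  · rw [max_eq_right h2]
    have hw : ∑ _k ∈ Finset.range (2 ^ n), ((2 : ℝ) ^ n)⁻¹ = 1 := by
      rw [Finset.sum_const, Finset.card_range, nsmul_eq_mul]
      push_cast
      field_simp
    have h3 := Real.rpow_arith_mean_le_arith_mean_rpow (Finset.range (2 ^ n))
      (fun _ => ((2 : ℝ) ^ n)⁻¹) (fun k => ‖c k‖ ^ p.toReal) (fun _ _ => ht.le) hw
      (fun i _ => by positivity) (p := 2 / p.toReal) (by rw [le_div_iff₀ hpp]; linarith)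
    rw [← Finset.mul_sum, ← Finset.mul_sum, ← h0, ← Real.rpow_mul (norm_nonneg _),
      mul_div_cancel₀ _ hpp.ne'] at h3
    have h4 : ∑ i ∈ Finset.range (2 ^ n), (‖c i‖ ^ p.toReal) ^ (2 / p.toReal) = S := by
      refine Finset.sum_congr rfl fun k _ => ?_
      rw [← Real.rpow_mul (norm_nonneg _), mul_div_cancel₀ _ hpp.ne', Real.rpow_two]
    rw [h4, Real.rpow_two] at h3
    rw [← Real.sqrt_eq_rpow, ← Real.sqrt_mul ht.le]
    exact Real.le_sqrt_of_sq_le h3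

/-- the operator `w_n E_n` -/
noncomputable def Dyadic.Kop (n : ℕ) (w : ℕ → ℂ) : Lp ℂ p μ →L[ℂ] Lp ℂ p μ :=
  ∑ k ∈ Finset.range (2 ^ n), (w k • D.av p n k).smulRight (D.step p n (Pi.single k 1))

lemma Dyadic.Kop_apply (n : ℕ) (w : ℕ → ℂ) (f : Lp ℂ p μ) :
    D.Kop p n w f = D.step p n (fun k => w k * D.av p n k f) := by
  have h1 : D.step p n (fun k => w k * D.av p n k f) =
      D.step p n (∑ k ∈ Finset.range (2 ^ n), (w k * D.av p n k f) • (Pi.single k 1 : ℕ → ℂ)) := by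
    refine D.step_congr p n fun j hj => ?_
    rw [Finset.sum_apply, Finset.sum_eq_single j]
    · simp
    · intro b _ hb
      simp [Pi.single_apply, Ne.symm hb]
    · intro h; exact absurd (Finset.mem_range.mpr hj) h
  rw [h1, map_sum]
  simp [Dyadic.Kop]

lemma Dyadic.norm_Kop_apply_le (hp : p ≠ ∞) (n : ℕ) (w : ℕ → ℂ) {W : ℝ} (hW0 : 0 ≤ W)
    (hW : ∀ k < 2 ^ n, ‖w k‖ ≤ W) (f : Lp ℂ p μ) :
    ‖D.Kop p n w f‖ ≤ (((2 : ℝ) ^ n)⁻¹) ^ (1 / max p.toReal 2) * (W * 2 ^ n * (Real.sqrt 3 *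
      (((2 : ℝ) ^ (2 ^ n))⁻¹ * ∑ s ∈ (Finset.range (2 ^ n)).powerset, ‖D.phi p n s f‖))) := by
  rw [D.Kop_apply]
  refine (D.norm_step_le p hp n _).trans ?_
  have h1 : ∑ k ∈ Finset.range (2 ^ n), ‖w k * D.av p n k f‖ ^ 2 ≤
      (W * 2 ^ n) ^ 2 * ∑ k ∈ Finset.range (2 ^ n), ‖∫ ω in κ n ⁻¹' {k}, f ω ∂μ‖ ^ 2 := by
    rw [Finset.mul_sum]
    refine Finset.sum_le_sum fun k hk => ?_
    rw [D.av_apply, norm_mul, norm_mul, norm_pow, Complex.norm_ofNat, ← mul_pow]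
    have := hW k (Finset.mem_range.mp hk)
    have h2 : ‖w k‖ * (2 ^ n * ‖∫ ω in κ n ⁻¹' {k}, f ω ∂μ‖) ≤
      W * 2 ^ n * ‖∫ ω in κ n ⁻¹' {k}, f ω ∂μ‖ := by
      rw [mul_assoc]; gcongr
    gcongr
  have h2 := khinchine (Finset.range (2 ^ n)) (fun k => ∫ ω in κ n ⁻¹' {k}, f ω ∂μ)
  have h3 : Real.sqrt (∑ k ∈ Finset.range (2 ^ n), ‖∫ ω in κ n ⁻¹' {k}, f ω ∂μ‖ ^ 2) ≤
      Real.sqrt 3 * (((2 : ℝ) ^ (2 ^ n))⁻¹ * ∑ s ∈ (Finset.range (2 ^ n)).powerset,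
        ‖D.phi p n s f‖) := by
    simp only [← D.phi_apply, Finset.card_range] at h2
    rw [mul_left_comm, ← div_eq_inv_mul, le_div_iff₀ (by positivity), mul_comm]
    exact h2
  have h4 : Real.sqrt (∑ k ∈ Finset.range (2 ^ n), ‖w k * D.av p n k f‖ ^ 2) ≤
      W * 2 ^ n * Real.sqrt (∑ k ∈ Finset.range (2 ^ n), ‖∫ ω in κ n ⁻¹' {k}, f ω ∂μ‖ ^ 2) := by
    refine (Real.sqrt_le_sqrt h1).trans ?_
    rw [Real.sqrt_mul (by positivity), Real.sqrt_sq (by positivity)]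
  gcongr
  refine h4.trans ?_
  gcongr

/-- the bounding constants -/
noncomputable def cst (p : ℝ≥0∞) (C : ℝ) (n : ℕ) : ℝ :=
  (((2 : ℝ) ^ n)⁻¹) ^ (1 / max p.toReal 2) * (C * Real.sqrt 3)

lemma cst_nonneg {C : ℝ} (hC : 0 ≤ C) (n : ℕ) : 0 ≤ cst p C n := by
  unfold cst; positivity

lemma cst_summable (C : ℝ) : Summable (cst p C) := by
  unfold cst
  refine Summable.mul_right _ ?_
  set q := 1 / max p.toReal 2 with hq
  have hq0 : 0 < q := by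
    have : 0 < max p.toReal 2 := lt_of_lt_of_le (by norm_num) (le_max_right _ _)
    positivity
  have h1 : ∀ n : ℕ, (((2 : ℝ) ^ n)⁻¹) ^ q = (((2 : ℝ)⁻¹) ^ q) ^ n := by
    intro n
    rw [← inv_pow, ← Real.rpow_natCast, ← Real.rpow_mul (by positivity), mul_comm,
      Real.rpow_mul (by positivity), Real.rpow_natCast]
  simp_rw [h1]
  refine summable_geometric_of_lt_one (by positivity) ?_
  exact Real.rpow_lt_one (by positivity) (by norm_num) hq0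

lemma Dyadic.norm_Kop_apply_le' (hp : p ≠ ∞) (n : ℕ) (w : ℕ → ℂ) {C : ℝ} (hC : 0 ≤ C)
    (hW : ∀ k < 2 ^ n, ‖w k‖ ≤ C * ((2 : ℝ) ^ n)⁻¹) (f : Lp ℂ p μ) :
    ‖D.Kop p n w f‖ ≤ cst p C n *
      (((2 : ℝ) ^ (2 ^ n))⁻¹ * ∑ s ∈ (Finset.range (2 ^ n)).powerset, ‖D.phi p n s f‖) := by
  refine (D.norm_Kop_apply_le p hp n w (by positivity) hW f).trans (le_of_eq ?_)
  unfold cst
  have : (2 : ℝ) ^ n ≠ 0 := by positivity
  field_simp

lemma Dyadic.norm_Kop_le (hp : p ≠ ∞) (n : ℕ) (w : ℕ → ℂ) {C : ℝ} (hC : 0 ≤ C)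
    (hW : ∀ k < 2 ^ n, ‖w k‖ ≤ C * ((2 : ℝ) ^ n)⁻¹) :
    ‖D.Kop p n w‖ ≤ cst p C n := by
  refine ContinuousLinearMap.opNorm_le_bound _ (cst_nonneg p hC n) fun f => ?_
  refine (D.norm_Kop_apply_le' p hp n w hC hW f).trans ?_
  have h1 : ∑ s ∈ (Finset.range (2 ^ n)).powerset, ‖D.phi p n s f‖ ≤
      ∑ _s ∈ (Finset.range (2 ^ n)).powerset, ‖f‖ :=
    Finset.sum_le_sum fun s _ => D.norm_phi_apply_le p n s f
  rw [Finset.sum_const, Finset.card_powerset, Finset.card_range, nsmul_eq_mul] at h1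
  have h2 : ((2 : ℝ) ^ (2 ^ n))⁻¹ * ∑ s ∈ (Finset.range (2 ^ n)).powerset, ‖D.phi p n s f‖ ≤
      ‖f‖ := by
    rw [inv_mul_le_iff₀ (by positivity)]
    push_cast at h1
    exact h1
  have := cst_nonneg p hC n
  gcongr

/-- 1-summing estimate for one level -/
lemma Dyadic.sum_norm_Kop_le (hp : p ≠ ∞) (n : ℕ) (w : ℕ → ℂ) {C : ℝ} (hC : 0 ≤ C)
    (hW : ∀ k < 2 ^ n, ‖w k‖ ≤ C * ((2 : ℝ) ^ n)⁻¹) (N : ℕ) (x : Fin N → Lp ℂ p μ) (B : ℝ)
    (hB : ∀ φ : Lp ℂ p μ →L[ℂ] ℂ, ‖φ‖ ≤ 1 → ∑ i, ‖φ (x i)‖ ≤ B) :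
    ∑ i, ‖D.Kop p n w (x i)‖ ≤ cst p C n * B := by
  refine (Finset.sum_le_sum fun i _ => D.norm_Kop_apply_le' p hp n w hC hW (x i)).trans ?_
  rw [← Finset.mul_sum, ← Finset.mul_sum, Finset.sum_comm]
  have h1 : ∑ s ∈ (Finset.range (2 ^ n)).powerset, ∑ i, ‖D.phi p n s (x i)‖ ≤
      ∑ _s ∈ (Finset.range (2 ^ n)).powerset, B :=
    Finset.sum_le_sum fun s _ => hB _ (D.norm_phi_le p n s)
  rw [Finset.sum_const, Finset.card_powerset, Finset.card_range, nsmul_eq_mul] at h1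
  have h2 : ((2 : ℝ) ^ (2 ^ n))⁻¹ * ∑ s ∈ (Finset.range (2 ^ n)).powerset,
      ∑ i, ‖D.phi p n s (x i)‖ ≤ B := by
    rw [inv_mul_le_iff₀ (by positivity)]
    push_cast at h1
    exact h1
  have := cst_nonneg p hC n
  gcongr

section Kfull

variable (v : ℕ → ℕ → ℂ)

/-- `K = ∑ v_n E_{n+1}` -/
noncomputable def Dyadic.K : Lp ℂ p μ →L[ℂ] Lp ℂ p μ := ∑' n, D.Kop p (n + 1) (v n)

lemma Dyadic.hasSum_K (hp : p ≠ ∞) {C : ℝ} (hC : 0 ≤ C)
    (hv : ∀ n, ∀ k < 2 ^ (n + 1), ‖v n k‖ ≤ C * ((2 : ℝ) ^ (n + 1))⁻¹) :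
    HasSum (fun n => D.Kop p (n + 1) (v n)) (D.K p v) := by
  have h1 : Summable (fun n => cst p C (n + 1)) :=
    (summable_nat_add_iff 1).mpr (cst_summable p C)
  exact (Summable.of_norm_bounded h1 fun n => D.norm_Kop_le p hp (n + 1) (v n) hC (hv n)).hasSum

lemma Dyadic.hasSum_K_apply (hp : p ≠ ∞) {C : ℝ} (hC : 0 ≤ C)
    (hv : ∀ n, ∀ k < 2 ^ (n + 1), ‖v n k‖ ≤ C * ((2 : ℝ) ^ (n + 1))⁻¹) (f : Lp ℂ p μ) :
    HasSum (fun n => D.Kop p (n + 1) (v n) f) (D.K p v f) :=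
  (D.hasSum_K p v hp hC hv).mapL (ContinuousLinearMap.apply ℂ (Lp ℂ p μ) f)

lemma Dyadic.K_summing (hp : p ≠ ∞) {C : ℝ} (hC : 0 ≤ C)
    (hv : ∀ n, ∀ k < 2 ^ (n + 1), ‖v n k‖ ≤ C * ((2 : ℝ) ^ (n + 1))⁻¹)
    (N : ℕ) (x : Fin N → Lp ℂ p μ) (B : ℝ)
    (hB : ∀ φ : Lp ℂ p μ →L[ℂ] ℂ, ‖φ‖ ≤ 1 → ∑ i, ‖φ (x i)‖ ≤ B) :
    ∑ i, ‖D.K p v (x i)‖ ≤ (∑' n, cst p C (n + 1)) * B := by
  have hcs : Summable (fun n => cst p C (n + 1)) :=
    (summable_nat_add_iff 1).mpr (cst_summable p C)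
  have hlim : Tendsto (fun M => ∑ i, ‖∑ n ∈ Finset.range M, D.Kop p (n + 1) (v n) (x i)‖) atTop
      (𝓝 (∑ i, ‖D.K p v (x i)‖)) :=
    tendsto_finset_sum _ fun i _ => ((D.hasSum_K_apply p v hp hC hv (x i)).tendsto_sum_nat).norm
  have hB0 : 0 ≤ B := by
    have := hB 0 (by simp)
    simpa using this
  refine le_of_tendsto hlim (Eventually.of_forall fun M => ?_)
  calc ∑ i, ‖∑ n ∈ Finset.range M, D.Kop p (n + 1) (v n) (x i)‖
      ≤ ∑ i, ∑ n ∈ Finset.range M, ‖D.Kop p (n + 1) (v n) (x i)‖ :=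
        Finset.sum_le_sum fun i _ => norm_sum_le _ _
    _ = ∑ n ∈ Finset.range M, ∑ i, ‖D.Kop p (n + 1) (v n) (x i)‖ := Finset.sum_comm
    _ ≤ ∑ n ∈ Finset.range M, cst p C (n + 1) * B :=
        Finset.sum_le_sum fun n _ => D.sum_norm_Kop_le p hp (n + 1) (v n) hC (hv n) N x B hB
    _ = (∑ n ∈ Finset.range M, cst p C (n + 1)) * B := by rw [Finset.sum_mul]
    _ ≤ _ := by
        have := hcs.sum_le_tsum (Finset.range M) (fun n _ => cst_nonneg p hC (n + 1))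
        gcongr

end Kfull

section telescoping

variable (ζ : ℕ → ℕ → ℂ)

lemma Dyadic.Kop_sub (n : ℕ) (w w' : ℕ → ℂ) (f : Lp ℂ p μ) :
    D.Kop p n (fun k => w k - w' k) f = D.Kop p n w f - D.Kop p n w' f := by
  rw [D.Kop_apply, D.Kop_apply, D.Kop_apply, ← map_sub]
  congr 1
  funext k
  simp only [Pi.sub_apply]
  ring

lemma Dyadic.Kop_half (n : ℕ) {g : Lp ℂ p μ} (hg : D.IsStep p n g) :
    D.Kop p (n + 1) (fun k => ζ n (k / 2)) g = D.Kop p n (ζ n) g := by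
  rw [D.Kop_apply, D.Kop_apply, D.step_succ p n]
  refine D.step_congr p (n + 1) fun k hk => ?_
  have h2 : k / 2 < 2 ^ n := by rw [pow_succ] at hk; omega
  congr 1
  rcases Nat.even_or_odd' k with ⟨j, hj | hj⟩
  · have h3 : k / 2 = j := by omega
    rw [h3] at h2 ⊢
    rw [hj, D.av_succ_even p n j h2 hg]
  · have h3 : k / 2 = j := by omega
    rw [h3] at h2 ⊢
    rw [hj, D.av_succ_odd p n j h2 hg]

/-- the telescoping weights -/
def vv (n k : ℕ) : ℂ := ζ (n + 1) k - ζ n (k / 2)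

lemma Dyadic.Kop_vv (n : ℕ) {g : Lp ℂ p μ} (hg : D.IsStep p n g) :
    D.Kop p (n + 1) (vv ζ n) g = D.Kop p (n + 1) (ζ (n + 1)) g - D.Kop p n (ζ n) g := by
  rw [← D.Kop_half p ζ n hg, ← D.Kop_sub]
  rfl

lemma Dyadic.sum_tele {l : ℕ} {g A : Lp ℂ p μ} (hg : D.IsStep p l g)
    (h0 : ∑ n ∈ Finset.range l, D.Kop p (n + 1) (vv ζ n) g = D.Kop p l (ζ l) g - A) :
    ∀ N, l ≤ N → ∑ n ∈ Finset.range N, D.Kop p (n + 1) (vv ζ n) g = D.Kop p N (ζ N) g - A := by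
  intro N hN
  induction N, hN using Nat.le_induction with
  | base => exact h0
  | succ N hN ih =>
    rw [Finset.sum_range_succ, ih, D.Kop_vv p ζ N (hg.mono D hN)]
    abel

lemma Dyadic.tele_zero : ∀ N, 0 ≤ N →
    ∑ n ∈ Finset.range N, D.Kop p (n + 1) (vv ζ n) (D.e p 0) =
      D.Kop p N (ζ N) (D.e p 0) - ζ 0 0 • D.e p 0 := by
  have hs : D.IsStep p 0 (D.e p 0) := D.isStep_e p 0 0 (by norm_num)
  refine D.sum_tele p ζ hs ?_
  rw [Finset.range_zero, Finset.sum_empty, D.Kop_apply, D.e_zero, ← map_smul]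
  rw [D.step_congr p 0 (c := fun k => ζ 0 k * D.av p 0 k ((D.step p 0) fun _ => 1))
    (d := ζ 0 0 • fun _ => 1)]
  · simp
  · intro k hk
    have : k = 0 := by simpa using hk
    subst this
    rw [D.av_step p 0 0 (by norm_num)]
    simp

lemma Dyadic.tele_e' (n k : ℕ) (hk : k < 2 ^ n) : ∀ N, n + 1 ≤ N →
    ∑ m ∈ Finset.range N, D.Kop p (m + 1) (vv ζ m) (D.e' p n k) =
      D.Kop p N (ζ N) (D.e' p n k) - ζ n k • D.e' p n k := by
  refine D.sum_tele p ζ (D.isStep_e' p n k) ?_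
  rw [Finset.sum_range_succ, Finset.sum_eq_zero, zero_add]
  · rw [D.Kop_apply, D.Kop_apply]
    have e1 : ζ n k • D.e' p n k = D.step p (n + 1) (ζ n k • hc k) := by
      rw [map_smul]; rfl
    rw [e1, ← map_sub]
    refine D.step_congr p (n + 1) fun j hj => ?_
    rw [Dyadic.e', D.av_step p _ j hj]
    simp only [vv, Pi.sub_apply, Pi.smul_apply, smul_eq_mul, D.av_step p _ j hj]
    unfold hc
    split_ifs with h1 h2
    · have : j / 2 = k := by omega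
      rw [this]; ring
    · have : j / 2 = k := by omega
      rw [this]; ring
    · ring
  · intro m hm
    have hm' := Finset.mem_range.mp hm
    rw [D.Kop_apply]
    rw [D.step_congr p (m + 1) (d := 0) (fun j _ => by rw [D.av_e' p n k (m + 1) hm' j]; simp)]
    exact map_zero _

end telescoping

section mult

variable {z : Ω → ℂ}

/-- multiplication by a bounded function -/
noncomputable def Mul (hz : MemLp z ∞ μ) : Lp ℂ p μ →L[ℂ] Lp ℂ p μ :=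
  (ContinuousLinearMap.mul ℂ ℂ).holderL μ ∞ p p (hz.toLp z)

omit [Fact (1 ≤ p)] in
lemma Mul_coe [Fact (1 ≤ p)] (hz : MemLp z ∞ μ) (f : Lp ℂ p μ) :
    Mul p hz f =ᵐ[μ] fun ω => z ω * f ω := by
  have h1 := (ContinuousLinearMap.mul ℂ ℂ).coeFn_holder (r := p) (hz.toLp z) f
  have h2 := hz.coeFn_toLp
  have h3 : Mul p hz f = (ContinuousLinearMap.mul ℂ ℂ).holder p (hz.toLp z) f := by
    simp [Mul]
  rw [h3]
  filter_upwards [h1, h2] with ω h1 h2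
  rw [h1, h2]; rfl

lemma Dyadic.norm_Kop_sub_Mul_le (hz : MemLp z ∞ μ) (ζ : ℕ → ℕ → ℂ) {C : ℝ}
    (hζ : ∀ N ω, ‖z ω - ζ N (κ N ω)‖ ≤ C * ((2 : ℝ) ^ N)⁻¹) (N : ℕ) {g : Lp ℂ p μ}
    (hg : D.IsStep p N g) :
    ‖D.Kop p N (ζ N) g - Mul p hz g‖ ≤ C * ((2 : ℝ) ^ N)⁻¹ * ‖g‖ := by
  refine Lp.norm_le_mul_norm_of_ae_le_mul ?_
  obtain ⟨c, rfl⟩ := hg
  rw [D.Kop_apply]
  filter_upwards [Lp.coeFn_sub (D.step p N (fun k => ζ N k * D.av p N k (D.step p N c)))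
    (Mul p hz (D.step p N c)), D.step_coe p N (fun k => ζ N k * D.av p N k (D.step p N c)),
    Mul_coe p hz (D.step p N c), D.step_coe p N c] with ω h1 h2 h3 h4
  rw [h1, Pi.sub_apply, h2, h3, h4, D.av_step p N _ (D.lt N ω), ← sub_mul, norm_mul, norm_sub_rev]
  have := hζ N ω
  gcongr

lemma Dyadic.tendsto_Kop (hz : MemLp z ∞ μ) (ζ : ℕ → ℕ → ℂ) {C : ℝ}
    (hζ : ∀ N ω, ‖z ω - ζ N (κ N ω)‖ ≤ C * ((2 : ℝ) ^ N)⁻¹) {l : ℕ} {g : Lp ℂ p μ}
    (hg : D.IsStep p l g) :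
    Tendsto (fun N => D.Kop p N (ζ N) g) atTop (𝓝 (Mul p hz g)) := by
  rw [tendsto_iff_norm_sub_tendsto_zero]
  have h1 : Tendsto (fun N : ℕ => C * ((2 : ℝ) ^ N)⁻¹ * ‖g‖) atTop (𝓝 (C * 0 * ‖g‖)) := by
    refine (Tendsto.const_mul _ ?_).mul_const _
    have := tendsto_pow_atTop_nhds_zero_of_lt_one (r := (2 : ℝ)⁻¹) (by norm_num) (by norm_num)
    simpa [inv_pow] using this
  rw [mul_zero, zero_mul] at h1
  refine squeeze_zero' (Eventually.of_forall fun N => norm_nonneg _) ?_ h1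
  filter_upwards [eventually_ge_atTop l] with N hN
  exact D.norm_Kop_sub_Mul_le p hz ζ hζ N (hg.mono D hN)

/-- The abstract decomposition theorem. -/
theorem Dyadic.decomposition (hp1 : 1 < p) (hp : p ≠ ∞) (hd : D.Dense p)
    (hz : MemLp z ∞ μ) (ζ : ℕ → ℕ → ℂ) {C : ℝ}
    (hζ : ∀ N ω, ‖z ω - ζ N (κ N ω)‖ ≤ C * ((2 : ℝ) ^ N)⁻¹) :
    ∃ (T K : Lp ℂ p μ →L[ℂ] Lp ℂ p μ),
        (∃ e : ℕ → Lp ℂ p μ,
            (∀ f : Lp ℂ p μ, ∃! a : ℕ → ℂ, HasSum (fun n => a n • e n) f) ∧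
            ∃ c : ℕ → ℂ, ∀ n, T (e n) = c n • e n) ∧
        (∃ C : ℝ, ∀ (n : ℕ) (x : Fin n → Lp ℂ p μ) (B : ℝ),
            (∀ φ : Lp ℂ p μ →L[ℂ] ℂ, ‖φ‖ ≤ 1 → ∑ i, ‖φ (x i)‖ ≤ B) →
            ∑ i, ‖K (x i)‖ ≤ C * B) ∧
        ∀ f : Lp ℂ p μ, ∀ᵐ t ∂μ, z t * f t = T f t + K f t := by
  have := D.isProb
  -- nonemptiness of dyadic sets
  have hne : ∀ n k, k < 2 ^ n → ∃ ω, κ n ω = k := by
    intro n k hk
    have h1 := D.vol n k hk
    have h2 : μ (κ n ⁻¹' {k}) ≠ 0 := by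
      rw [h1]; simp
    obtain ⟨ω, hω⟩ := nonempty_of_measure_ne_zero h2
    exact ⟨ω, hω⟩
  have hC : 0 ≤ C := by
    obtain ⟨ω, _⟩ := hne 0 0 (by norm_num)
    have := (norm_nonneg _).trans (hζ 0 ω)
    simpa using this
  have hv : ∀ n, ∀ k < 2 ^ (n + 1), ‖vv ζ n k‖ ≤ (3 * C) * ((2 : ℝ) ^ (n + 1))⁻¹ := by
    intro n k hk
    obtain ⟨ω, hω⟩ := hne (n + 1) k hk
    have h1 := hζ (n + 1) ω
    have h2 := hζ n ω
    rw [D.half n ω, hω] at h2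
    rw [hω] at h1
    have e1 : vv ζ n k = (z ω - ζ n (k / 2)) - (z ω - ζ (n + 1) k) := by unfold vv; ring
    rw [e1]
    refine (norm_sub_le _ _).trans ?_
    have e2 : ((2 : ℝ) ^ n)⁻¹ = 2 * ((2 : ℝ) ^ (n + 1))⁻¹ := by
      rw [pow_succ]; field_simp
    rw [e2] at h2
    linarith
  have h3C : 0 ≤ 3 * C := by positivity
  set K := D.K p (vv ζ) with hK
  refine ⟨Mul p hz - K, K, ⟨D.e p, D.basis p hp1 hp hd, ?_⟩, ?_, ?_⟩
  · refine ⟨fun m => if m = 0 then ζ 0 0 else ζ (Nat.log 2 m) (m - 2 ^ Nat.log 2 m), fun m => ?_⟩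
    have key : ∀ (g : Lp ℂ p μ) (c : ℂ) (l : ℕ), D.IsStep p l g →
        (∀ N, l ≤ N → ∑ n ∈ Finset.range N, D.Kop p (n + 1) (vv ζ n) g =
          D.Kop p N (ζ N) g - c • g) → (Mul p hz - K) g = c • g := by
      intro g c l hg hN
      have h1 := (D.hasSum_K_apply p (vv ζ) hp h3C hv g).tendsto_sum_nat
      have h2 : Tendsto (fun N => ∑ n ∈ Finset.range N, D.Kop p (n + 1) (vv ζ n) g) atTop
          (𝓝 (Mul p hz g - c • g)) := by
        refine ((D.tendsto_Kop p hz ζ hζ hg).sub_const (c • g)).congr' ?_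
        filter_upwards [eventually_ge_atTop l] with N hlN
        exact (hN N hlN).symm
      have h3 := tendsto_nhds_unique h1 h2
      change Mul p hz g - K g = c • g
      rw [hK, h3]; abel
    rcases Nat.eq_zero_or_pos m with h | h
    · subst h
      exact key _ _ 0 (D.isStep_e p 0 0 (by norm_num)) (D.tele_zero p ζ)
    · obtain ⟨n, k, hk, rfl⟩ := exists_index h.ne'
      have hne0 : 2 ^ n + k ≠ 0 := by positivity
      simp only [hne0, if_false, log_add hk, Nat.add_sub_cancel_left]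
      rw [D.e_index p hk]
      exact key _ _ (n + 1) (D.isStep_e' p n k) (D.tele_e' p ζ n k hk)
  · exact ⟨_, D.K_summing p (vv ζ) hp h3C hv⟩
  · intro f
    have h1 : Mul p hz f = (Mul p hz - K) f + K f := by
      change _ = Mul p hz f - K f + K f
      abel
    have h2 := Lp.coeFn_add ((Mul p hz - K) f) (K f)
    rw [← h1] at h2
    filter_upwards [h2, Mul_coe p hz f] with ω h2 h3
    rw [← h3, h2]; rfl

end mult

end Pool.Agent.Helper37
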